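import Mathlib
import Pool.Agent.Helper902.NAJames

/-! James sequences in a non-reflexive real or complex Banach space (with the constant `3/4`). -/

namespace Pool.Agent.X204.WMP

open Filter Topology

variable {𝕜 : Type*} [RCLike 𝕜]

/-- distance to a finite dimensional space of functionals, dual form -/
theorem dist_fin {E : Type*} [NormedAddCommGroup E] [NormedSpace 𝕜 E]
    (Φ : StrongDual 𝕜 E) (θ : ℝ) (hθ : 0 < θ) {ι : Type*} [Finite ι] (L : ι → StrongDual 𝕜 E)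
    (hcon : ∀ f : E, ‖f‖ ≤ 1 → (∀ i, L i f = 0) → RCLike.re (Φ f) ≤ θ) :
    ∃ Ψ : StrongDual 𝕜 E, ‖Ψ‖ ≤ θ ∧
      ((Φ - Ψ : StrongDual 𝕜 E) : E →ₗ[𝕜] 𝕜) ∈
        Submodule.span 𝕜 (Set.range fun i => ((L i : StrongDual 𝕜 E) : E →ₗ[𝕜] 𝕜)) := by
  classical
  set E0 : Submodule 𝕜 E := ⨅ i, LinearMap.ker ((L i : StrongDual 𝕜 E) : E →ₗ[𝕜] 𝕜) with hE0
  have hE0mem : ∀ f : E, f ∈ E0 ↔ ∀ i, L i f = 0 := by
    intro f
    rw [hE0, Submodule.mem_iInf]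
    rfl
  have hbound1 : ∀ f ∈ E0, ‖f‖ ≤ 1 → ‖Φ f‖ ≤ θ := by
    intro f hf hf1
    by_cases h0 : Φ f = 0
    · rw [h0, norm_zero]; exact hθ.le
    set c : 𝕜 := (‖Φ f‖ : 𝕜)⁻¹ * (starRingEnd 𝕜) (Φ f) with hc
    have hn : (‖Φ f‖ : ℝ) ≠ 0 := norm_ne_zero_iff.2 h0
    have hcn : ‖c‖ = 1 := by
      rw [hc, norm_mul, norm_inv, RCLike.norm_ofReal, abs_norm, RCLike.norm_conj,
        inv_mul_cancel₀ hn]
    have h1 := hcon (c • f) (by rw [norm_smul, hcn, one_mul]; exact hf1) (by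
      intro i
      rw [map_smul, (hE0mem f).1 hf i, smul_zero])
    have h2 : Φ (c • f) = (‖Φ f‖ : 𝕜) := by
      rw [map_smul, smul_eq_mul, hc, mul_assoc, RCLike.conj_mul, sq, ← mul_assoc,
        inv_mul_cancel₀ (by exact_mod_cast hn), one_mul]
    rw [h2, RCLike.ofReal_re] at h1
    exact h1
  have hbound : ∀ f ∈ E0, ‖Φ f‖ ≤ θ * ‖f‖ := by
    intro f hf
    rcases eq_or_ne f 0 with h0 | h0
    · simp [h0]
    · have hpos : 0 < ‖f‖ := norm_pos_iff.mpr h0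
      have h1 := hbound1 (((‖f‖⁻¹ : ℝ) : 𝕜) • f) (E0.smul_mem _ hf) (by
        rw [norm_smul, RCLike.norm_ofReal, abs_of_pos (inv_pos.2 hpos), inv_mul_cancel₀ hpos.ne'])
      rw [map_smul, norm_smul, RCLike.norm_ofReal, abs_of_pos (inv_pos.2 hpos),
        inv_mul_le_iff₀ hpos] at h1
      linarith
  set φ : StrongDual 𝕜 E0 := Φ.comp E0.subtypeL with hφ
  have hφn : ‖φ‖ ≤ θ := ContinuousLinearMap.opNorm_le_bound _ hθ.le fun f => hbound f f.2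
  obtain ⟨Ψ, hΨ1, hΨ2⟩ := exists_extension_norm_eq E0 φ
  refine ⟨Ψ, by rw [hΨ2]; exact hφn, ?_⟩
  apply mem_span_of_iInf_ker_le_ker
  intro f hf
  have hfE : f ∈ E0 := hf
  rw [LinearMap.mem_ker]
  have := hΨ1 ⟨f, hfE⟩
  rw [ContinuousLinearMap.coe_coe]
  change Φ f - Ψ f = 0
  have h4 : φ ⟨f, hfE⟩ = Φ f := rfl
  rw [h4] at this
  rw [← this]
  simp

variable {X : Type*} [NormedAddCommGroup X] [NormedSpace 𝕜 X]

/-- a functional killing a finite set of vectors on which a far element of the bidual is large -/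
theorem stepA (Φ : StrongDual 𝕜 (StrongDual 𝕜 X)) (θ : ℝ) (hθ : 0 < θ)
    (hd : ∀ x : X, θ < ‖Φ - NormedSpace.inclusionInDoubleDual 𝕜 X x‖) (s : Finset X) :
    ∃ f : StrongDual 𝕜 X, ‖f‖ ≤ 1 ∧ (∀ x ∈ s, f x = 0) ∧ θ < RCLike.re (Φ f) := by
  classical
  by_contra hcon
  push Not at hcon
  obtain ⟨Ψ, hΨ1, hspan⟩ := dist_fin Φ θ hθ
    (fun x : s => NormedSpace.inclusionInDoubleDual 𝕜 X (x : X)) (by
      intro f hf hfx
      refine hcon f hf fun x hx => ?_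
      have := hfx ⟨x, hx⟩
      simpa using this)
  have hle : Submodule.span 𝕜 (Set.range fun x : s =>
      ((NormedSpace.inclusionInDoubleDual 𝕜 X (x : X) : StrongDual 𝕜 (StrongDual 𝕜 X)) :
        StrongDual 𝕜 X →ₗ[𝕜] 𝕜)) ≤
      LinearMap.range ((ContinuousLinearMap.coeLM 𝕜).comp
        (NormedSpace.inclusionInDoubleDual 𝕜 X).toLinearMap :
          X →ₗ[𝕜] (StrongDual 𝕜 X →ₗ[𝕜] 𝕜)) := by
    rw [Submodule.span_le]
    rintro _ ⟨x, rfl⟩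
    exact ⟨(x : X), rfl⟩
  obtain ⟨x', hx'⟩ := hle hspan
  have hx'' : NormedSpace.inclusionInDoubleDual 𝕜 X x' = Φ - Ψ := by
    apply ContinuousLinearMap.ext
    intro f
    have := LinearMap.congr_fun hx' f
    simpa using this
  have := hd x'
  rw [hx''] at this
  have h5 : Φ - (Φ - Ψ) = Ψ := by abel
  rw [h5] at this
  linarith

/-- Helly's step -/
theorem stepB (Φ : StrongDual 𝕜 (StrongDual 𝕜 X)) (hΦ : ‖Φ‖ ≤ 1) (θ : ℝ)
    (F : Finset (StrongDual 𝕜 X)) (hF : ∀ f ∈ F, θ < RCLike.re (Φ f)) :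
    ∃ x : X, ‖x‖ ≤ 1 ∧ ∀ f ∈ F, θ ≤ RCLike.re (f x) := by
  classical
  by_contra hcon
  push Not at hcon
  let rx : X → (F → ℝ) := fun x => fun f : F => RCLike.re ((f : StrongDual 𝕜 X) x)
  set A : Set (F → ℝ) := rx '' {x : X | ‖x‖ ≤ 1} with hA
  set B : Set (F → ℝ) := {t | ∀ f, θ < t f} with hB
  have hBo : IsOpen B := by
    have : B = ⋂ f : F, {t : F → ℝ | θ < t f} := by
      ext t; simp [hB]
    rw [this]
    exact isOpen_iInter_of_finite fun f => isOpen_lt continuous_const (continuous_apply f)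
  have hBc : Convex ℝ B := by
    intro a ha b hb p q hp hq hpq f
    have h1 := ha f
    have h2 := hb f
    simp only [Pi.add_apply, Pi.smul_apply, smul_eq_mul]
    rcases eq_or_lt_of_le hp with hp0 | hp0
    · have : q = 1 := by linarith
      rw [← hp0, this]; linarith
    · have h3 : p * θ < p * a f := mul_lt_mul_of_pos_left h1 hp0
      have h4 : q * θ ≤ q * b f := mul_le_mul_of_nonneg_left h2.le hq
      have h5 : p * θ + q * θ = θ := by rw [← add_mul, hpq, one_mul]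
      linarith
  have hAc : Convex ℝ A := by
    rintro _ ⟨x, hx, rfl⟩ _ ⟨y, hy, rfl⟩ p q hp hq hpq
    refine ⟨(p : 𝕜) • x + (q : 𝕜) • y, ?_, ?_⟩
    · change ‖(p : 𝕜) • x + (q : 𝕜) • y‖ ≤ 1
      calc ‖(p : 𝕜) • x + (q : 𝕜) • y‖ ≤ ‖(p : 𝕜) • x‖ + ‖(q : 𝕜) • y‖ := norm_add_le _ _
        _ = p * ‖x‖ + q * ‖y‖ := by
            rw [norm_smul, norm_smul, RCLike.norm_ofReal, RCLike.norm_ofReal, abs_of_nonneg hp,
              abs_of_nonneg hq]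
        _ ≤ p * 1 + q * 1 := by
            gcongr
            · exact hx
            · exact hy
        _ = 1 := by rw [mul_one, mul_one, hpq]
    · funext f
      simp only [rx, map_add, map_smul, smul_eq_mul, Pi.add_apply, Pi.smul_apply,
        RCLike.re_ofReal_mul]
  have hdisj : Disjoint B A := by
    rw [Set.disjoint_left]
    rintro t ht ⟨x, hx, rfl⟩
    obtain ⟨f, hfF, hf⟩ := hcon x hx
    have h1 : θ < RCLike.re (f x) := ht ⟨f, hfF⟩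
    linarith
  obtain ⟨L, u, hL1, hL2⟩ := geometric_hahn_banach_open hBc hBo hAc hdisj
  set c : F → ℝ := fun f => - L (Pi.single f 1) with hc
  have hLrep : ∀ t : F → ℝ, L t = - ∑ f, c f * t f := by
    intro t
    have h1 : t = ∑ f, t f • (Pi.single f (1 : ℝ) : F → ℝ) := by
      ext g
      simp [Finset.sum_apply, Pi.single_apply]
    conv_lhs => rw [h1]
    rw [map_sum, ← Finset.sum_neg_distrib]
    refine Finset.sum_congr rfl fun f _ => ?_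
    rw [map_smul]
    simp [hc]
    ring
  set g : StrongDual 𝕜 X := ∑ f : F, ((c f : ℝ) : 𝕜) • (f : StrongDual 𝕜 X) with hg
  have hgre : ∀ x : X, RCLike.re (g x) = ∑ f : F, c f * RCLike.re ((f : StrongDual 𝕜 X) x) := by
    intro x
    rw [hg, sum_apply, map_sum]
    refine Finset.sum_congr rfl fun f _ => ?_
    rw [smul_apply, smul_eq_mul, RCLike.re_ofReal_mul]
  have hgx : ∀ x : X, ‖x‖ ≤ 1 → RCLike.re (g x) ≤ -u := by
    intro x hx
    have h1 := hL2 _ ⟨x, hx, rfl⟩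
    rw [hLrep] at h1
    rw [hgre]
    simp only [rx] at h1
    linarith
  have hu : 0 ≤ -u := by
    have := hgx 0 (by simp)
    simpa using this
  have hgn1 : ∀ x : X, ‖x‖ ≤ 1 → ‖g x‖ ≤ -u := by
    intro x hx
    by_cases h0 : g x = 0
    · rw [h0, norm_zero]; exact hu
    have hn : (‖g x‖ : ℝ) ≠ 0 := norm_ne_zero_iff.2 h0
    set d : 𝕜 := (‖g x‖ : 𝕜)⁻¹ * (starRingEnd 𝕜) (g x) with hd
    have hdn : ‖d‖ = 1 := by
      rw [hd, norm_mul, norm_inv, RCLike.norm_ofReal, abs_norm, RCLike.norm_conj,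
        inv_mul_cancel₀ hn]
    have h1 := hgx (d • x) (by rw [norm_smul, hdn, one_mul]; exact hx)
    have h2 : g (d • x) = (‖g x‖ : 𝕜) := by
      rw [map_smul, smul_eq_mul, hd, mul_assoc, RCLike.conj_mul, sq, ← mul_assoc,
        inv_mul_cancel₀ (by exact_mod_cast hn), one_mul]
    rw [h2, RCLike.ofReal_re] at h1
    exact h1
  have hgn : ‖g‖ ≤ -u := by
    refine ContinuousLinearMap.opNorm_le_bound _ hu fun x => ?_
    rcases eq_or_ne x 0 with h0 | h0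
    · simp [h0]
    · have hpos : 0 < ‖x‖ := norm_pos_iff.mpr h0
      have h1 := hgn1 (((‖x‖⁻¹ : ℝ) : 𝕜) • x) (by
        rw [norm_smul, RCLike.norm_ofReal, abs_of_pos (inv_pos.2 hpos), inv_mul_cancel₀ hpos.ne'])
      rw [map_smul, norm_smul, RCLike.norm_ofReal, abs_of_pos (inv_pos.2 hpos),
        inv_mul_le_iff₀ hpos] at h1
      linarith
  have hΦg : RCLike.re (Φ g) ≤ -u := by
    calc RCLike.re (Φ g) ≤ ‖Φ g‖ := RCLike.re_le_norm _
      _ ≤ ‖Φ‖ * ‖g‖ := Φ.le_opNorm g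
      _ ≤ 1 * (-u) := mul_le_mul hΦ hgn (norm_nonneg _) (by norm_num)
      _ = -u := one_mul _
  have hmem : (fun f : F => RCLike.re (Φ (f : StrongDual 𝕜 X))) ∈ B := fun f => hF f f.2
  have h1 := hL1 _ hmem
  rw [hLrep] at h1
  have h2 : RCLike.re (Φ g) = ∑ f : F, c f * RCLike.re (Φ (f : StrongDual 𝕜 X)) := by
    rw [hg, map_sum, map_sum]
    refine Finset.sum_congr rfl fun f _ => ?_
    rw [map_smul, smul_eq_mul, RCLike.re_ofReal_mul]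
  rw [h2] at hΦg
  linarith

/-- Riesz lemma for the range of a non surjective isometry -/
theorem far_gen {X E : Type*} [NormedAddCommGroup X] [NormedSpace 𝕜 X] [CompleteSpace X]
    [NormedAddCommGroup E] [NormedSpace 𝕜 E] (J : X →ₗᵢ[𝕜] E) (hJ : ¬ Function.Surjective J) :
    ∃ Φ : E, ‖Φ‖ ≤ 1 ∧ ∀ x : X, (3 / 4 : ℝ) < ‖Φ - J x‖ := by
  set R : Submodule 𝕜 E := LinearMap.range J.toLinearMap with hR
  have hclosed : IsClosed (R : Set E) := by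
    have h1 : (R : Set E) = Set.range J := by
      ext y
      constructor
      · rintro ⟨x, hx⟩; exact ⟨x, hx⟩
      · rintro ⟨x, hx⟩; exact ⟨x, hx⟩
    rw [h1]
    exact J.isometry.isClosedEmbedding.isClosed_range
  have hne : ∃ y : E, y ∉ R := by
    by_contra h
    push Not at h
    exact hJ fun y => h y
  obtain ⟨Φ1, hΦ1, hΦ1'⟩ := riesz_lemma hclosed hne (show (7 / 8 : ℝ) < 1 by norm_num)
  have hΦ1n : 0 < ‖Φ1‖ := by
    rw [norm_pos_iff]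
    rintro rfl
    exact hΦ1 (Submodule.zero_mem _)
  have hinv : ‖((‖Φ1‖⁻¹ : ℝ) : 𝕜)‖ = ‖Φ1‖⁻¹ := by
    rw [RCLike.norm_ofReal, abs_of_pos (inv_pos.2 hΦ1n)]
  refine ⟨((‖Φ1‖⁻¹ : ℝ) : 𝕜) • Φ1, ?_, ?_⟩
  · rw [norm_smul, hinv, inv_mul_cancel₀ hΦ1n.ne']
  · intro x
    have h1 := hΦ1' (J (((‖Φ1‖ : ℝ) : 𝕜) • x)) ⟨_, rfl⟩
    have h2 : ((‖Φ1‖⁻¹ : ℝ) : 𝕜) • Φ1 - J x =
        ((‖Φ1‖⁻¹ : ℝ) : 𝕜) • (Φ1 - J (((‖Φ1‖ : ℝ) : 𝕜) • x)) := by
      rw [smul_sub, map_smul, smul_smul, ← RCLike.ofReal_mul, inv_mul_cancel₀ hΦ1n.ne',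
        RCLike.ofReal_one, one_smul]
    rw [h2, norm_smul, hinv]
    have h3 : ‖Φ1‖⁻¹ * (7 / 8 * ‖Φ1‖) ≤ ‖Φ1‖⁻¹ * ‖Φ1 - J (((‖Φ1‖ : ℝ) : 𝕜) • x)‖ :=
      mul_le_mul_of_nonneg_left h1 (by positivity)
    have h4 : ‖Φ1‖⁻¹ * (7 / 8 * ‖Φ1‖) = 7 / 8 := by
      field_simp
    linarith

theorem far_gen' {X E : Type*} [NormedAddCommGroup X] [NormedSpace 𝕜 X] [CompleteSpace X]
    [NormedAddCommGroup E] [NormedSpace 𝕜 E] (J : X → E) (hadd : ∀ x y, J (x + y) = J x + J y)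
    (hsmul : ∀ (c : 𝕜) x, J (c • x) = c • J x) (hn : ∀ x, ‖J x‖ = ‖x‖)
    (hJ : ¬ Function.Surjective J) :
    ∃ Φ : E, ‖Φ‖ ≤ 1 ∧ ∀ x : X, (3 / 4 : ℝ) < ‖Φ - J x‖ := by
  exact far_gen (⟨⟨⟨J, hadd⟩, hsmul⟩, hn⟩ : X →ₗᵢ[𝕜] E) hJ

/-- an element of the bidual far from the canonical image -/
theorem far [CompleteSpace X]
    (hX : ¬ Function.Surjective (NormedSpace.inclusionInDoubleDual 𝕜 X)) :
    ∃ Φ : StrongDual 𝕜 (StrongDual 𝕜 X), ‖Φ‖ ≤ 1 ∧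
      ∀ x : X, (3 / 4 : ℝ) < ‖Φ - NormedSpace.inclusionInDoubleDual 𝕜 X x‖ := by
  have h0 : ∀ x : X, ‖NormedSpace.inclusionInDoubleDual 𝕜 X x‖ = ‖x‖ := by
    intro x
    exact (NormedSpace.inclusionInDoubleDualLi 𝕜 (E := X)).norm_map x
  refine far_gen' (𝕜 := 𝕜) (X := X) (E := StrongDual 𝕜 (StrongDual 𝕜 X))
    (fun x => NormedSpace.inclusionInDoubleDual 𝕜 X x) ?_ ?_ h0 hX
  · intro x y
    exact map_add _ _ _
  · intro c x
    exact map_smul _ _ _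

/-- James' sequences in a nonreflexive Banach space. -/
theorem seqs [CompleteSpace X]
    (hX : ¬ Function.Surjective (NormedSpace.inclusionInDoubleDual 𝕜 X)) :
    ∃ (x : ℕ → X) (f : ℕ → (X →L[𝕜] 𝕜)),
      (∀ n, ‖x n‖ ≤ 1) ∧ (∀ n, ‖f n‖ ≤ 1) ∧
      (∀ k n, n < k → f k (x n) = 0) ∧ (∀ k n, k ≤ n → 3 / 4 ≤ RCLike.re (f k (x n))) := by
  obtain ⟨Φ, hΦn, hd⟩ := far hX
  choose cA hA1 hA2 hA3 using stepA Φ (3 / 4) (by norm_num) hd
  choose cB hB1 hB2 using stepB Φ hΦn (3 / 4)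
  obtain ⟨x, f, hxf⟩ := Pool.Agent.Helper902.NA.james_rec
    (fun f : StrongDual 𝕜 X => (3 / 4 : ℝ) < RCLike.re (Φ f)) cA cB hA3
  refine ⟨x, f, ?_, ?_, ?_, ?_⟩
  · intro n
    obtain ⟨s, G, hG, h1, h2, h3, h4⟩ := hxf n
    rw [h3]; exact hB1 _ _
  · intro n
    obtain ⟨s, G, hG, h1, h2, h3, h4⟩ := hxf n
    rw [h1]; exact hA1 _
  · intro k n hnk
    obtain ⟨s, G, hG, h1, h2, h3, h4⟩ := hxf k
    rw [h1]
    exact hA2 _ _ (h2 n hnk)
  · intro k n hkn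
    obtain ⟨s, G, hG, h1, h2, h3, h4⟩ := hxf n
    rw [h3]
    exact hB2 _ _ _ (h4 k hkn)

end Pool.Agent.X204.WMP
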