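import Mathlib

/-! An optimisation in the style of James: near-optimal convex block sequences. -/

namespace Pool.Agent.X204.WMP

open Filter Topology

section opt

variable {D : Type*} [NormedAddCommGroup D] [NormedSpace ℝ D]

/-- `K y n = co {y_j : j ≥ n}`. -/
def K (y : ℕ → D) (n : ℕ) : Set D := convexHull ℝ (y '' Set.Ici n)

theorem K_convex (y : ℕ → D) (n : ℕ) : Convex ℝ (K y n) := convex_convexHull _ _

theorem mem_K (y : ℕ → D) {n k : ℕ} (h : n ≤ k) : y k ∈ K y n :=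
  subset_convexHull _ _ ⟨k, h, rfl⟩

theorem K_sub {y : ℕ → D} {n : ℕ} {C : Set D} (hC : Convex ℝ C) (h : ∀ k, n ≤ k → y k ∈ C) :
    K y n ⊆ C :=
  convexHull_min (by rintro _ ⟨k, hk, rfl⟩; exact h k hk) hC

theorem K_anti (y : ℕ → D) {m n : ℕ} (h : m ≤ n) : K y n ⊆ K y m :=
  K_sub (K_convex y m) fun _ hk => mem_K y (h.trans hk)

/-- The admissible bounds. -/
def A (y : ℕ → D) (s : D) (r : ℝ) : Set ℝ :=
  {P | ∃ z : ℕ → D, (∀ k, z k ∈ K y k) ∧ ∃ g ∈ K y 0, ∀ k, ‖(2 : ℝ) • (s + r • g) - z k‖ ≤ P}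

theorem A_nonneg {y : ℕ → D} {s : D} {r : ℝ} {P : ℝ} (h : P ∈ A y s r) : 0 ≤ P := by
  obtain ⟨z, -, g, -, h⟩ := h
  exact (norm_nonneg _).trans (h 0)

theorem norm_le_of_mem_K {y : ℕ → D} (hy : ∀ k, ‖y k‖ ≤ 1) {n : ℕ} {g : D} (hg : g ∈ K y n) :
    ‖g‖ ≤ 1 := by
  have : K y n ⊆ Metric.closedBall 0 1 := K_sub (convex_closedBall _ _) fun k _ => by
    simpa using hy k
  simpa using this hg

theorem A_mem {y : ℕ → D} (hy : ∀ k, ‖y k‖ ≤ 1) {s : D} {r : ℝ} (hr : 0 ≤ r) :
    2 * (‖s‖ + r) + 1 ∈ A y s r := by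
  refine ⟨y, fun k => mem_K y le_rfl, y 0, mem_K y le_rfl, fun k => ?_⟩
  calc ‖(2 : ℝ) • (s + r • y 0) - y k‖ ≤ ‖(2 : ℝ) • (s + r • y 0)‖ + ‖y k‖ := norm_sub_le _ _
    _ ≤ 2 * (‖s‖ + r * 1) + 1 := by
        rw [norm_smul, Real.norm_of_nonneg (by norm_num)]
        have h1 : ‖s + r • y 0‖ ≤ ‖s‖ + r * 1 := by
          refine (norm_add_le _ _).trans ?_
          rw [norm_smul, Real.norm_of_nonneg hr]
          gcongr
          exact hy 0
        have := hy k
        linarith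
    _ = 2 * (‖s‖ + r) + 1 := by ring

theorem step {y : ℕ → D} (hy : ∀ k, ‖y k‖ ≤ 1) (s : D) {r τ : ℝ} (hr : 0 ≤ r) (hτ : 0 < τ) :
    ∃ (g : D) (y' : ℕ → D), g ∈ K y 0 ∧ (∀ k, y' k ∈ K y (k + 1)) ∧
      ∀ k, ‖(2 : ℝ) • (s + r • g) - y' k‖ ≤ sInf (A y s r) + τ := by
  obtain ⟨P, ⟨z, hz, g, hg, hP⟩, hPlt⟩ := exists_lt_of_csInf_lt ⟨_, A_mem hy hr⟩
    (lt_add_of_pos_right (sInf (A y s r)) hτ)
  exact ⟨g, fun k => z (k + 1), hg, fun k => hz (k + 1), fun k => (hP (k + 1)).trans hPlt.le⟩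

/-- The recursion. -/
theorem exists_states {f : ℕ → D} (hf : ∀ k, ‖f k‖ ≤ 1) {r τ : ℕ → ℝ} (hr : ∀ n, 0 ≤ r n)
    (hτ : ∀ n, 0 < τ n) :
    ∃ (s : ℕ → D) (y : ℕ → ℕ → D) (g : ℕ → D), s 0 = 0 ∧ y 0 = f ∧ ∀ n,
      g n ∈ K (y n) 0 ∧ s (n + 1) = s n + (r n - r (n + 1)) • g n ∧
      (∀ k, y (n + 1) k ∈ K (y n) (k + 1)) ∧
      ∀ k, ‖(2 : ℝ) • (s n + r n • g n) - y (n + 1) k‖ ≤ sInf (A (y n) (s n) (r n)) + τ n := by
  classical
  let St := D × {y : ℕ → D // ∀ k, ‖y k‖ ≤ 1}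
  have hstep : ∀ (n : ℕ) (p : St), ∃ (g : D) (y' : ℕ → D), g ∈ K p.2.1 0 ∧
      (∀ k, y' k ∈ K p.2.1 (k + 1)) ∧
      ∀ k, ‖(2 : ℝ) • (p.1 + r n • g) - y' k‖ ≤ sInf (A p.2.1 p.1 (r n)) + τ n :=
    fun n p => step p.2.2 p.1 (hr n) (hτ n)
  choose G Y hG hY hP using hstep
  let nxt : ℕ → St → St := fun n p => (p.1 + (r n - r (n + 1)) • G n p,
    ⟨Y n p, fun k => norm_le_of_mem_K p.2.2 (hY n p k)⟩)
  let S : ℕ → St := fun n => Nat.rec (0, ⟨f, hf⟩) (fun n p => nxt n p) n
  refine ⟨fun n => (S n).1, fun n => (S n).2.1, fun n => G n (S n), rfl, rfl, fun n => ?_⟩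
  exact ⟨hG n (S n), rfl, hY n (S n), hP n (S n)⟩

/-- The optimisation lemma. -/
theorem opt [CompleteSpace D] {f : ℕ → D} (hf : ∀ k, ‖f k‖ ≤ 1) {r τ : ℕ → ℝ}
    (hr : ∀ n, 0 < r n) (hra : ∀ n, r (n + 1) ≤ r n) (hr0 : r 0 = 1)
    (hrs : Tendsto r atTop (𝓝 0)) (hτ : ∀ n, 0 < τ n) :
    ∃ (s : ℕ → D) (g : ℕ → D) (h : D) (L : ℝ), s 0 = 0 ∧
      (∀ n, s (n + 1) = s n + (r n - r (n + 1)) • g n) ∧ (∀ n, g n ∈ K f n) ∧
      (∀ n, ‖h - s n‖ ≤ r n) ∧
      (∀ n k, n < k → ‖(2 : ℝ) • (s n + r n • g n) - g k‖ ≤ L + τ n) ∧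
      (∀ P : ℝ, (∃ m, ∀ k, m ≤ k → ‖(2 : ℝ) • h - g k‖ ≤ P) → L ≤ P) := by
  obtain ⟨s, y, g, hs0, hy0, H⟩ := exists_states hf (fun n => (hr n).le) hτ
  choose hg hs hy hP using H
  -- the sequences `y n` are blocks of each other
  have hyy : ∀ i n k, y (i + n) k ∈ K (y i) (k + n) := by
    intro i n
    induction n with
    | zero => intro k; exact mem_K (y i) le_rfl
    | succ n ih =>
      intro k
      refine K_sub (K_convex (y i) (k + (n + 1))) (fun j hj => ?_) (hy (i + n) k)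
      exact K_anti (y i) (by omega) (ih j)
  have hKK : ∀ i n m, K (y (i + n)) m ⊆ K (y i) (m + n) := fun i n m =>
    K_sub (K_convex _ _) fun k hk => K_anti (y i) (by omega) (hyy i n k)
  have hgK : ∀ i n, g (i + n) ∈ K (y i) n := fun i n => by
    have := hKK i n 0 (hg (i + n))
    rwa [zero_add] at this
  have hgf : ∀ n, g n ∈ K f n := fun n => by
    have := hgK 0 n
    rwa [zero_add, hy0] at this
  have hg1 : ∀ n, ‖g n‖ ≤ 1 := fun n => norm_le_of_mem_K hf (hgf n)
  -- convergence of `s`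
  have hdiff : ∀ n m, ‖s (n + m) - s n‖ ≤ r n - r (n + m) := by
    intro n m
    induction m with
    | zero => simp
    | succ m ih =>
      have h1 : s (n + (m + 1)) - s n = (s (n + m) - s n) +
          (r (n + m) - r (n + m + 1)) • g (n + m) := by
        rw [← add_assoc, hs (n + m)]; abel
      rw [h1]
      refine (norm_add_le _ _).trans ?_
      have h2 : ‖(r (n + m) - r (n + m + 1)) • g (n + m)‖ ≤ r (n + m) - r (n + m + 1) := by
        rw [norm_smul, Real.norm_of_nonneg (by linarith [hra (n + m)])]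
        calc (r (n + m) - r (n + m + 1)) * ‖g (n + m)‖ ≤ (r (n + m) - r (n + m + 1)) * 1 :=
              mul_le_mul_of_nonneg_left (hg1 _) (by linarith [hra (n + m)])
          _ = _ := mul_one _
      rw [← add_assoc]
      linarith
  have hcauchy : CauchySeq s := by
    rw [Metric.cauchySeq_iff']
    intro ε hε
    obtain ⟨N, hN⟩ := (hrs.eventually (gt_mem_nhds hε)).exists
    refine ⟨N, fun n hn => ?_⟩
    obtain ⟨m, rfl⟩ := Nat.exists_eq_add_of_le hn
    rw [dist_eq_norm]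
    have := hdiff N m
    have h2 := hr (N + m)
    linarith
  obtain ⟨h, hh⟩ := cauchySeq_tendsto_of_complete hcauchy
  have hhs : ∀ n, ‖h - s n‖ ≤ r n := by
    intro n
    have h1 : Tendsto (fun m => ‖s (n + m) - s n‖) atTop (𝓝 ‖h - s n‖) := by
      have h2 : Tendsto (fun m => s (n + m)) atTop (𝓝 h) := by
        have := hh.comp (tendsto_add_atTop_nat n)
        refine this.congr fun m => ?_
        simp only [Function.comp_apply, add_comm]
      exact (h2.sub_const (s n)).norm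
    refine le_of_tendsto' h1 fun m => ?_
    have := hdiff n m
    linarith [hr (n + m)]
  -- the value
  have hbdd : BddAbove (Set.range fun n => sInf (A (y n) (s n) (r n))) := by
    refine ⟨5, ?_⟩
    rintro _ ⟨n, rfl⟩
    have hyn : ∀ k, ‖y n k‖ ≤ 1 := fun k => by
      have := hyy 0 n k
      rw [zero_add, hy0] at this
      exact norm_le_of_mem_K hf this
    have h1 : sInf (A (y n) (s n) (r n)) ≤ 2 * (‖s n‖ + r n) + 1 :=
      csInf_le ⟨0, fun P hP => A_nonneg hP⟩ (A_mem hyn (hr n).le)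
    have h2 : ‖s n‖ ≤ 1 := by
      have := hdiff 0 n
      rw [zero_add, hs0, sub_zero, hr0] at this
      linarith [hr n]
    have h3 : r n ≤ 1 := by
      have : Antitone r := antitone_nat_of_succ_le hra
      have := this (Nat.zero_le n)
      rwa [hr0] at this
    linarith
  refine ⟨s, g, h, ⨆ n, sInf (A (y n) (s n) (r n)), hs0, hs, hgf, hhs, ?_, ?_⟩
  · intro n k hk
    have h1 : K (y (n + 1)) 0 ⊆ Metric.closedBall ((2 : ℝ) • (s n + r n • g n))
        (sInf (A (y n) (s n) (r n)) + τ n) := K_sub (convex_closedBall _ _) fun j _ => by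
      rw [Metric.mem_closedBall, dist_comm, dist_eq_norm]; exact hP n j
    obtain ⟨m, rfl⟩ := Nat.exists_eq_add_of_lt hk
    have h2 : g (n + 1 + m) ∈ K (y (n + 1)) 0 := K_anti _ (Nat.zero_le m) (hgK (n + 1) m)
    have h3 := h1 h2
    rw [Metric.mem_closedBall, dist_comm, dist_eq_norm] at h3
    have h4 : n + m + 1 = n + 1 + m := by ring
    rw [h4]
    refine h3.trans ?_
    have := le_ciSup hbdd n
    linarith
  · rintro P ⟨m, hm⟩
    refine ciSup_le fun i => ?_
    -- representation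
    have hrep : ∀ n w, w ∈ K (y (i + n)) 0 → ∃ v ∈ K (y i) 0,
        s (i + n) + r (i + n) • w = s i + r i • v := by
      intro n
      induction n with
      | zero => intro w hw; exact ⟨w, hw, rfl⟩
      | succ n ih =>
        intro w hw
        have hrn := hr (i + n)
        have h1 : w ∈ K (y (i + n)) 0 := by
          have := hKK (i + n) 1 0 hw
          exact K_anti _ (Nat.zero_le _) this
        have h2 : ((r (i + n) - r (i + n + 1)) / r (i + n)) • g (i + n) +
            (r (i + n + 1) / r (i + n)) • w ∈ K (y (i + n)) 0 := by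
          refine K_convex (y (i + n)) 0 (hg (i + n)) h1 ?_ ?_ ?_
          · exact div_nonneg (by linarith [hra (i + n)]) hrn.le
          · exact div_nonneg (hr _).le hrn.le
          · field_simp; ring
        obtain ⟨v, hv, hveq⟩ := ih _ h2
        refine ⟨v, hv, ?_⟩
        rw [← hveq, ← add_assoc, hs (i + n), smul_add, smul_smul, smul_smul,
          mul_div_cancel₀ _ hrn.ne', mul_div_cancel₀ _ hrn.ne', add_assoc]
    have key : ∀ n, m ≤ n → sInf (A (y i) (s i) (r i)) ≤ P + 4 * r (i + n) := by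
      intro n hn
      obtain ⟨v, hv, hveq⟩ := hrep n (g (i + n)) (hg (i + n))
      refine csInf_le ⟨0, fun P hP => A_nonneg hP⟩
        ⟨fun k => g (i + (m + k)), fun k => ?_, v, hv, fun k => ?_⟩
      · exact K_anti _ (by omega) (hgK i (m + k))
      · rw [← hveq]
        have h1 : (2 : ℝ) • (s (i + n) + r (i + n) • g (i + n)) - g (i + (m + k)) =
            ((2 : ℝ) • h - g (i + (m + k))) - (2 : ℝ) • (h - s (i + n)) +
              (2 * r (i + n)) • g (i + n) := by
          rw [smul_add, smul_sub, smul_smul]; abel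
        rw [h1]
        calc ‖((2 : ℝ) • h - g (i + (m + k))) - (2 : ℝ) • (h - s (i + n)) +
              (2 * r (i + n)) • g (i + n)‖
            ≤ ‖(2 : ℝ) • h - g (i + (m + k))‖ + ‖(2 : ℝ) • (h - s (i + n))‖ +
              ‖(2 * r (i + n)) • g (i + n)‖ :=
              (norm_add_le _ _).trans (by gcongr; exact norm_sub_le _ _)
          _ ≤ P + 2 * r (i + n) + 2 * r (i + n) := by
              refine add_le_add (add_le_add (hm _ (by omega)) ?_) ?_
              · rw [norm_smul, Real.norm_of_nonneg (by norm_num)]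
                have := hhs (i + n)
                linarith
              · rw [norm_smul, Real.norm_of_nonneg (by linarith [hr (i + n)])]
                calc 2 * r (i + n) * ‖g (i + n)‖ ≤ 2 * r (i + n) * 1 :=
                      mul_le_mul_of_nonneg_left (hg1 _) (by linarith [hr (i + n)])
                  _ = _ := mul_one _
          _ = P + 4 * r (i + n) := by ring
    have hlim : Tendsto (fun n => P + 4 * r (i + n)) atTop (𝓝 (P + 4 * 0)) := by
      refine tendsto_const_nhds.add (Tendsto.const_mul _ ?_)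
      have := hrs.comp (tendsto_add_atTop_nat i)
      refine this.congr fun n => ?_
      simp only [Function.comp_apply, add_comm]
    rw [mul_zero, add_zero] at hlim
    exact ge_of_tendsto hlim (eventually_atTop.2 ⟨m, key⟩)

end opt

end Pool.Agent.X204.WMP
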