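import Mathlib
import Pool.Agent.X204.WMP.Opt
import Pool.Agent.X204.WMP.James

/-! The weak maximizing property and reflexivity. -/

namespace Pool.Agent.X204.WMP

open Filter Topology
open scoped ENNReal

section defs

variable (𝕜 : Type*) [RCLike 𝕜]

/-- the sequence `x` is weakly null -/
def WeaklyNull {E : Type*} [NormedAddCommGroup E] [NormedSpace 𝕜 E] (x : ℕ → E) : Prop :=
  ∀ f : E →L[𝕜] 𝕜, Tendsto (fun n => f (x n)) atTop (𝓝 0)

/-- the weak maximizing property of the pair `(E, F)` -/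
def HasWMP (E F : Type*) [NormedAddCommGroup E] [NormedSpace 𝕜 E] [NormedAddCommGroup F]
    [NormedSpace 𝕜 F] : Prop :=
  ∀ T : E →L[𝕜] F, (∃ x : ℕ → E, (∀ n, ‖x n‖ = 1) ∧
    Tendsto (fun n => ‖T (x n)‖) atTop (𝓝 ‖T‖) ∧ ¬ WeaklyNull 𝕜 x) →
    ∃ x : E, ‖x‖ = 1 ∧ ‖T x‖ = ‖T‖

end defs

variable {𝕜 : Type} [RCLike 𝕜] {E : Type*} [NormedAddCommGroup E] [NormedSpace 𝕜 E]
  {G : Type} [NormedAddCommGroup G] [NormedSpace 𝕜 G]

/-- The operator `x ↦ (R_k x)_k` into `ℓ_∞(G)`. -/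
noncomputable def toLinf (R : ℕ → (E →L[𝕜] G)) (L : ℝ) (hR : ∀ k, ‖R k‖ ≤ L) :
    E →L[𝕜] lp (fun _ : ℕ => G) ∞ :=
  LinearMap.mkContinuous
    { toFun := fun x => ⟨fun k => R k x, memℓp_infty ⟨L * ‖x‖, by
        rintro _ ⟨k, rfl⟩
        exact (R k).le_of_opNorm_le (hR k) x⟩⟩
      map_add' := fun x y => by
        apply lp.ext; funext k
        exact map_add (R k) x y
      map_smul' := fun c x => by
        apply lp.ext; funext k
        exact map_smul (R k) c x }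
    L (fun x => by
      have hL : 0 ≤ L := (norm_nonneg _).trans (hR 0)
      refine lp.norm_le_of_forall_le (by positivity) fun k => ?_
      exact (R k).le_of_opNorm_le (hR k) x)

theorem toLinf_apply (R : ℕ → (E →L[𝕜] G)) (L : ℝ) (hR : ∀ k, ‖R k‖ ≤ L) (x : E) (k : ℕ) :
    toLinf R L hR x k = R k x := rfl

theorem norm_toLinf_le (R : ℕ → (E →L[𝕜] G)) (L : ℝ) (hR : ∀ k, ‖R k‖ ≤ L) :
    ‖toLinf R L hR‖ ≤ L :=
  LinearMap.mkContinuous_norm_le _ ((norm_nonneg _).trans (hR 0)) _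

theorem le_norm_toLinf (R : ℕ → (E →L[𝕜] G)) (L : ℝ) (hR : ∀ k, ‖R k‖ ≤ L) (x : E) (k : ℕ) :
    ‖R k x‖ ≤ ‖toLinf R L hR x‖ :=
  lp.norm_apply_le_norm ENNReal.top_ne_zero (toLinf R L hR x) k

/-- The basic consequence of the weak maximizing property for `ℓ_∞(G)`. -/
theorem wmp_limsup (hW : HasWMP 𝕜 E (lp (fun _ : ℕ => G) ∞)) (R : ℕ → (E →L[𝕜] G)) (L : ℝ)
    (hL : 0 < L) (hR : Tendsto (fun k => ‖R k‖) atTop (𝓝 L)) (u : ℕ → E) (hu : ∀ k, ‖u k‖ = 1)
    (hRu : Tendsto (fun k => ‖R k (u k)‖) atTop (𝓝 L)) (hnull : ¬ WeaklyNull 𝕜 u) :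
    ∃ x : E, ‖x‖ = 1 ∧ ∀ ε : ℝ, 0 < ε → ∃ᶠ k in atTop, L - ε < ‖R k x‖ := by
  -- the scaling factors
  set c : ℕ → ℝ := fun k => (1 - 1 / ((k : ℝ) + 2)) * (L / max L ‖R k‖) with hc
  have hθ1 : ∀ k : ℕ, 1 - 1 / ((k : ℝ) + 2) < 1 := fun k => by
    have : 0 < 1 / ((k : ℝ) + 2) := by positivity
    linarith
  have hθ0 : ∀ k : ℕ, 0 ≤ 1 - 1 / ((k : ℝ) + 2) := fun k => by
    have : 1 / ((k : ℝ) + 2) ≤ 1 := by
      rw [div_le_one (by positivity)]
      have : (0 : ℝ) ≤ k := Nat.cast_nonneg k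
      linarith
    linarith
  have hmax : ∀ k, 0 < max L ‖R k‖ := fun k => lt_max_of_lt_left hL
  have hc0 : ∀ k, 0 ≤ c k := fun k => mul_nonneg (hθ0 k) (by have := hmax k; positivity)
  have hratio : ∀ k, L / max L ‖R k‖ ≤ 1 := fun k =>
    (div_le_one (hmax k)).2 (le_max_left _ _)
  have hc1 : ∀ k, c k ≤ 1 := fun k => by
    have h1 : 0 ≤ L / max L ‖R k‖ := by have := hmax k; positivity
    calc c k ≤ 1 * 1 := mul_le_mul (hθ1 k).le (hratio k) h1 zero_le_one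
      _ = 1 := one_mul 1
  have hcR : ∀ k, c k * ‖R k‖ ≤ (1 - 1 / ((k : ℝ) + 2)) * L := fun k => by
    rw [hc]
    simp only
    rw [mul_assoc]
    refine mul_le_mul_of_nonneg_left ?_ (hθ0 k)
    rw [div_mul_eq_mul_div, div_le_iff₀ (hmax k)]
    exact mul_le_mul_of_nonneg_left (le_max_right _ _) hL.le
  have hclim : Tendsto c atTop (𝓝 1) := by
    have h1 : Tendsto (fun k : ℕ => 1 - 1 / ((k : ℝ) + 2)) atTop (𝓝 (1 - 0)) := by
      refine tendsto_const_nhds.sub ?_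
      have := (tendsto_add_atTop_iff_nat 2).2 (tendsto_one_div_atTop_nhds_zero_nat (𝕜 := ℝ))
      refine this.congr fun k => ?_
      push_cast; rfl
    have h2 : Tendsto (fun k => L / max L ‖R k‖) atTop (𝓝 (L / max L L)) :=
      tendsto_const_nhds.div (tendsto_const_nhds.max hR) (by rw [max_self]; exact hL.ne')
    rw [max_self, div_self hL.ne'] at h2
    have h3 := h1.mul h2
    rw [sub_zero, mul_one] at h3
    exact h3
  set R' : ℕ → (E →L[𝕜] G) := fun k => ((c k : ℝ) : 𝕜) • R k with hR'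
  have hR'n : ∀ k, ‖R' k‖ = c k * ‖R k‖ := fun k => by
    rw [hR', norm_smul, RCLike.norm_ofReal, abs_of_nonneg (hc0 k)]
  have hR'a : ∀ k x, ‖R' k x‖ = c k * ‖R k x‖ := fun k x => by
    rw [hR', smul_apply, norm_smul, RCLike.norm_ofReal, abs_of_nonneg (hc0 k)]
  have hR'L : ∀ k, ‖R' k‖ ≤ L := fun k => by
    rw [hR'n]
    calc c k * ‖R k‖ ≤ (1 - 1 / ((k : ℝ) + 2)) * L := hcR k
      _ ≤ 1 * L := mul_le_mul_of_nonneg_right (hθ1 k).le hL.le
      _ = L := one_mul L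
  set T := toLinf R' L hR'L with hT
  have hTle : ‖T‖ ≤ L := norm_toLinf_le R' L hR'L
  have hlow : ∀ k, c k * ‖R k (u k)‖ ≤ ‖T (u k)‖ := fun k => by
    rw [← hR'a]; exact le_norm_toLinf R' L hR'L (u k) k
  have hup : ∀ k, ‖T (u k)‖ ≤ ‖T‖ := fun k => by
    have := T.le_opNorm (u k)
    rwa [hu k, mul_one] at this
  have hlim1 : Tendsto (fun k => c k * ‖R k (u k)‖) atTop (𝓝 L) := by
    have := hclim.mul hRu
    rwa [one_mul] at this
  have hTn : ‖T‖ = L := by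
    refine le_antisymm hTle ?_
    exact le_of_tendsto' hlim1 fun k => (hlow k).trans (hup k)
  have hTlim : Tendsto (fun k => ‖T (u k)‖) atTop (𝓝 ‖T‖) := by
    rw [hTn]
    exact tendsto_of_tendsto_of_tendsto_of_le_of_le hlim1 tendsto_const_nhds hlow
      (fun k => (hup k).trans hTle)
  obtain ⟨x, hx, hTx⟩ := hW T ⟨u, hu, hTlim, hnull⟩
  refine ⟨x, hx, fun ε hε => ?_⟩
  by_contra hcon
  rw [not_frequently, eventually_atTop] at hcon
  obtain ⟨N, hN⟩ := hcon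
  rw [hTn] at hTx
  have hRx : ∀ k, ‖R k x‖ ≤ ‖R k‖ := fun k => by
    have := (R k).le_opNorm x
    rwa [hx, mul_one] at this
  -- a uniform bound
  have hbound : ∀ k, ‖R' k x‖ ≤ max (L - ε) ((1 - 1 / ((N : ℝ) + 2)) * L) := by
    intro k
    rw [hR'a]
    by_cases hk : N ≤ k
    · refine le_max_of_le_left ?_
      have h1 := not_lt.1 (hN k hk)
      calc c k * ‖R k x‖ ≤ 1 * ‖R k x‖ := mul_le_mul_of_nonneg_right (hc1 k) (norm_nonneg _)
        _ ≤ L - ε := by rw [one_mul]; exact h1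
    · refine le_max_of_le_right ?_
      calc c k * ‖R k x‖ ≤ c k * ‖R k‖ := mul_le_mul_of_nonneg_left (hRx k) (hc0 k)
        _ ≤ (1 - 1 / ((k : ℝ) + 2)) * L := hcR k
        _ ≤ (1 - 1 / ((N : ℝ) + 2)) * L := by
            refine mul_le_mul_of_nonneg_right ?_ hL.le
            have h2 : (k : ℝ) ≤ N := by exact_mod_cast (not_le.1 hk).le
            have : 1 / ((N : ℝ) + 2) ≤ 1 / ((k : ℝ) + 2) := by gcongr
            linarith
  have hmaxlt : max (L - ε) ((1 - 1 / ((N : ℝ) + 2)) * L) < L := by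
    refine max_lt (by linarith) ?_
    have := mul_lt_mul_of_pos_right (hθ1 N) hL
    rwa [one_mul] at this
  have hmax0 : 0 ≤ max (L - ε) ((1 - 1 / ((N : ℝ) + 2)) * L) :=
    le_max_of_le_right (mul_nonneg (hθ0 N) hL.le)
  have h1 : ‖T x‖ ≤ max (L - ε) ((1 - 1 / ((N : ℝ) + 2)) * L) :=
    lp.norm_le_of_forall_le hmax0 hbound
  linarith

/-- near-norming unit vectors -/
theorem exists_unit {R : E →L[𝕜] G} {a : ℝ} (h0 : 0 ≤ a) (ha : a < ‖R‖) :
    ∃ u : E, ‖u‖ = 1 ∧ a < ‖R u‖ := by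
  by_contra hcon
  push Not at hcon
  refine absurd ha (not_lt.2 (R.opNorm_le_bound h0 fun x => ?_))
  rcases eq_or_ne x 0 with h | h
  · simp [h]
  · have hpos : 0 < ‖x‖ := norm_pos_iff.2 h
    have h1 := hcon (((‖x‖⁻¹ : ℝ) : 𝕜) • x) (by
      rw [norm_smul, RCLike.norm_ofReal, abs_of_pos (inv_pos.2 hpos), inv_mul_cancel₀ hpos.ne'])
    rw [map_smul, norm_smul, RCLike.norm_ofReal, abs_of_pos (inv_pos.2 hpos),
      inv_mul_le_iff₀ hpos] at h1
    linarith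

/-- The real analysis behind the contradiction. -/
theorem real_contra (b σ : ℕ → ℝ) (t L : ℝ) (k : ℕ → ℕ) (hk : Tendsto k atTop atTop)
    (hσ0 : σ 0 = 0) (hσ : ∀ n, σ (n + 1) = σ n + ((1 / 8) ^ n - (1 / 8) ^ (n + 1)) * b n)
    (ht : ∀ n, |t - σ n| ≤ (1 / 8) ^ n)
    (hI : ∀ n k, n < k → 2 * (σ n + (1 / 8) ^ n * b n) - b k ≤
      L + (1 / 8) ^ (n + 1) * (1 / 2) ^ n / 8)
    (hlim : Tendsto (fun i => 2 * t - b (k i)) atTop (𝓝 L)) : L ≤ 8 / 7 := by
  have hblim : Tendsto (fun i => b (k i)) atTop (𝓝 (2 * t - L)) := by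
    have := hlim.const_sub (2 * t)
    refine this.congr fun i => ?_
    ring
  have step1 : ∀ n, σ n + (1 / 8) ^ n * b n ≤ t + (1 / 8) ^ (n + 1) * (1 / 2) ^ n / 16 := by
    intro n
    have h1 : Tendsto (fun i => 2 * (σ n + (1 / 8) ^ n * b n) - b (k i)) atTop
        (𝓝 (2 * (σ n + (1 / 8) ^ n * b n) - (2 * t - L))) := hblim.const_sub _
    have h2 : 2 * (σ n + (1 / 8) ^ n * b n) - (2 * t - L) ≤
        L + (1 / 8) ^ (n + 1) * (1 / 2) ^ n / 8 := by
      refine le_of_tendsto h1 ?_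
      filter_upwards [hk.eventually_gt_atTop n] with i hi
      exact hI n (k i) hi
    linarith
  have step2 : ∀ n, (1 / 8 : ℝ) ^ n * (t - (1 / 8) * (1 - (1 / 2) ^ n)) ≤ t - σ n := by
    intro n
    induction n with
    | zero => simp [hσ0]
    | succ n ih =>
      have h1 := step1 n
      rw [hσ n]
      have hr : (0 : ℝ) < (1 / 8) ^ n := by positivity
      have hq : (0 : ℝ) < (1 / 2) ^ n := by positivity
      have hrq : (0 : ℝ) < (1 / 8) ^ n * (1 / 2) ^ n := by positivity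
      rw [pow_succ] at h1 ⊢
      rw [pow_succ (1 / 2 : ℝ) n]
      nlinarith
  have step3 : ∀ n, 8 / 7 * (t - 1 / 4) ≤ b n := by
    intro n
    have h1 := step2 n
    have h2 := (abs_le.1 (ht (n + 1))).2
    rw [hσ n] at h2
    have hr : (0 : ℝ) < (1 / 8) ^ n := by positivity
    have hq : (0 : ℝ) < (1 / 2) ^ n := by positivity
    have hrq : (0 : ℝ) < (1 / 8) ^ n * (1 / 2) ^ n := by positivity
    rw [pow_succ] at h2
    have h3 : (1 / 8 : ℝ) ^ n * (t - 1 / 4) ≤ (1 / 8) ^ n * (7 / 8 * b n) := by nlinarith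
    have h4 := le_of_mul_le_mul_left h3 hr
    linarith
  have h1 : 8 / 7 * (t - 1 / 4) ≤ 2 * t - L := ge_of_tendsto' hblim fun i => step3 _
  have h2 : t ≤ 1 := by
    have := (abs_le.1 (ht 0)).2
    rw [hσ0, pow_zero] at this
    linarith
  linarith

end Pool.Agent.X204.WMP
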