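import Mathlib
import Pool.Agent.X204.WMP.Core

/-! Spaces with the weak maximizing property for `ℓ_∞` are reflexive. -/

namespace Pool.Agent.X204.WMP

open Filter Topology
open scoped ENNReal

variable {𝕜 : Type} [RCLike 𝕜] {E : Type*} [NormedAddCommGroup E] [NormedSpace 𝕜 E]

theorem reflexive_of_wmp [CompleteSpace E] (hW : HasWMP 𝕜 E (lp (fun _ : ℕ => 𝕜) ∞)) :
    Function.Surjective (NormedSpace.inclusionInDoubleDual 𝕜 E) := by
  by_contra hX
  obtain ⟨x, f, hx, hf, hf0, hf1⟩ := seqs hX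
  obtain ⟨s, g, h, L, hs0, hs, hgf, hhs, hbd, hinf⟩ := opt (D := E →L[𝕜] 𝕜) hf
    (r := fun n => (1 / 8 : ℝ) ^ n) (τ := fun n => (1 / 8 : ℝ) ^ (n + 1) * (1 / 2) ^ n / 8)
    (fun n => by positivity)
    (fun n => pow_le_pow_of_le_one (by norm_num) (by norm_num) (Nat.le_succ n)) (by simp)
    (tendsto_pow_atTop_nhds_zero_of_lt_one (by norm_num) (by norm_num)) (fun n => by positivity)
  have hg1 : ∀ n, ‖g n‖ ≤ 1 := fun n => norm_le_of_mem_K hf (hgf n)
  have hh1 : ‖h‖ ≤ 1 := by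
    have := hhs 0
    simpa [hs0] using this
  -- real-linear functionals `v ↦ Re (v y)`
  have hconv : ∀ y : E, ∀ p q : ℝ, ∀ v w : E →L[𝕜] 𝕜,
      RCLike.re ((p • v + q • w) y) = p * RCLike.re (v y) + q * RCLike.re (w y) := by
    intro y p q v w
    rw [add_apply, smul_apply, smul_apply, map_add, RCLike.smul_re, RCLike.smul_re]
  -- lower bound of `L`
  have hL : 3 / 2 - 1 / 64 ≤ L := by
    have h1 : ∀ᶠ N in atTop, 3 / 4 ≤ RCLike.re ((g 0) (x N)) := by
      have h2 : K f 0 ⊆ {v : E →L[𝕜] 𝕜 | ∀ᶠ N in atTop, 3 / 4 ≤ RCLike.re (v (x N))} := by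
        refine K_sub ?_ fun k _ => ?_
        · intro v hv w hw p q hp hq hpq
          filter_upwards [hv, hw] with N h1 h2
          rw [hconv]
          nlinarith
        · filter_upwards [eventually_ge_atTop k] with N hN
          exact hf1 k N hN
      exact h2 (hgf 0)
    obtain ⟨N, hN⟩ := h1.exists
    have h3 : K f (N + 1) ⊆ {v : E →L[𝕜] 𝕜 | RCLike.re (v (x N)) = 0} := by
      refine K_sub ?_ fun k hk => ?_
      · intro v hv w hw p q hp hq hpq
        change RCLike.re _ = 0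
        have hv' : RCLike.re (v (x N)) = 0 := hv
        have hw' : RCLike.re (w (x N)) = 0 := hw
        rw [hconv, hv', hw', mul_zero, mul_zero, add_zero]
      · change RCLike.re ((f k) (x N)) = 0
        rw [hf0 k N (by omega), map_zero]
    have h4 : RCLike.re ((g (N + 1)) (x N)) = 0 := h3 (hgf (N + 1))
    have h5 := hbd 0 (N + 1) (Nat.succ_pos N)
    rw [hs0, zero_add, pow_zero, one_smul] at h5
    have h6 : RCLike.re (((2 : ℝ) • g 0 - g (N + 1)) (x N)) ≤ ‖(2 : ℝ) • g 0 - g (N + 1)‖ := by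
      calc RCLike.re (((2 : ℝ) • g 0 - g (N + 1)) (x N))
          ≤ ‖((2 : ℝ) • g 0 - g (N + 1)) (x N)‖ := RCLike.re_le_norm _
        _ ≤ ‖(2 : ℝ) • g 0 - g (N + 1)‖ * ‖x N‖ := ContinuousLinearMap.le_opNorm _ _
        _ ≤ ‖(2 : ℝ) • g 0 - g (N + 1)‖ * 1 := by gcongr; exact hx N
        _ = _ := mul_one _
    have h7 : RCLike.re (((2 : ℝ) • g 0 - g (N + 1)) (x N)) =
        2 * RCLike.re ((g 0) (x N)) := by
      rw [sub_apply, smul_apply, map_sub, RCLike.smul_re, h4, sub_zero]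
    rw [h7] at h6
    norm_num at h5
    linarith
  -- upper bounds
  have hup : ∀ n k, n < k → ‖(2 : ℝ) • h - g k‖ ≤ L + 5 * (1 / 8 : ℝ) ^ n := by
    intro n k hk
    have h1 := hbd n k hk
    have h2 : (2 : ℝ) • h - g k = ((2 : ℝ) • (s n + (1 / 8 : ℝ) ^ n • g n) - g k) +
        (2 : ℝ) • (h - s n) - (2 * (1 / 8 : ℝ) ^ n) • g n := by
      rw [smul_add, smul_sub, smul_smul]; abel
    rw [h2]
    have h3 : ‖(2 : ℝ) • (h - s n)‖ ≤ 2 * (1 / 8 : ℝ) ^ n := by
      rw [norm_smul, Real.norm_of_nonneg (by norm_num)]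
      have := hhs n
      linarith
    have h4 : ‖(2 * (1 / 8 : ℝ) ^ n) • g n‖ ≤ 2 * (1 / 8 : ℝ) ^ n := by
      rw [norm_smul, Real.norm_of_nonneg (by positivity)]
      calc 2 * (1 / 8 : ℝ) ^ n * ‖g n‖ ≤ 2 * (1 / 8 : ℝ) ^ n * 1 := by
            gcongr; exact hg1 n
        _ = _ := mul_one _
    have h5 : (1 / 8 : ℝ) ^ (n + 1) * (1 / 2) ^ n / 8 ≤ (1 / 8 : ℝ) ^ n := by
      have h6 : (1 / 2 : ℝ) ^ n ≤ 1 := pow_le_one₀ (by norm_num) (by norm_num)
      have h7 : (0 : ℝ) < (1 / 8) ^ n := by positivity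
      rw [pow_succ]
      nlinarith
    calc ‖((2 : ℝ) • (s n + (1 / 8 : ℝ) ^ n • g n) - g k) +
        (2 : ℝ) • (h - s n) - (2 * (1 / 8 : ℝ) ^ n) • g n‖
        ≤ ‖((2 : ℝ) • (s n + (1 / 8 : ℝ) ^ n • g n) - g k)‖ +
          ‖(2 : ℝ) • (h - s n)‖ + ‖(2 * (1 / 8 : ℝ) ^ n) • g n‖ :=
          (norm_sub_le _ _).trans (by gcongr; exact norm_add_le _ _)
      _ ≤ _ := by linarith
  have hev : ∀ ε : ℝ, 0 < ε → ∀ᶠ k in atTop, ‖(2 : ℝ) • h - g k‖ < L + ε := by
    intro ε hε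
    have h1 : Tendsto (fun n : ℕ => 5 * (1 / 8 : ℝ) ^ n) atTop (𝓝 (5 * 0)) :=
      (tendsto_pow_atTop_nhds_zero_of_lt_one (by norm_num) (by norm_num)).const_mul 5
    rw [mul_zero] at h1
    obtain ⟨n, hn⟩ := (h1.eventually (gt_mem_nhds hε)).exists
    filter_upwards [eventually_gt_atTop n] with k hk
    have := hup n k hk
    linarith
  have hfreq : ∀ ε : ℝ, 0 < ε → ∃ᶠ k in atTop, L - ε < ‖(2 : ℝ) • h - g k‖ := by
    intro ε hε
    by_contra hcon
    rw [not_frequently, eventually_atTop] at hcon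
    obtain ⟨m, hm⟩ := hcon
    have := hinf (L - ε) ⟨m, fun k hk => not_lt.1 (hm k hk)⟩
    linarith
  -- the subsequence of operators
  obtain ⟨φ, hφ, hφL⟩ := extraction_forall_of_frequently
    (P := fun j k => L - 1 / ((j : ℝ) + 1) < ‖(2 : ℝ) • h - g k‖)
    (fun j => hfreq _ (by positivity))
  set R : ℕ → (E →L[𝕜] 𝕜) := fun j => (2 : ℝ) • h - g (φ j) with hR
  have hlow1 : Tendsto (fun j : ℕ => L - 1 / ((j : ℝ) + 1)) atTop (𝓝 L) := by
    have := (tendsto_one_div_add_atTop_nhds_zero_nat (𝕜 := ℝ)).const_sub L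
    simpa using this
  have hRlim : Tendsto (fun j => ‖R j‖) atTop (𝓝 L) := by
    rw [tendsto_order]
    constructor
    · intro a ha
      filter_upwards [hlow1.eventually (lt_mem_nhds ha)] with j hj
      exact hj.trans (hφL j)
    · intro a ha
      have h1 := hφ.tendsto_atTop.eventually (hev (a - L) (by linarith))
      filter_upwards [h1] with j hj
      have h2 : ‖R j‖ < L + (a - L) := hj
      linarith
  have hRpos : ∀ j, 0 < ‖R j‖ := by
    intro j
    have h1 : L - 1 / ((j : ℝ) + 1) < ‖R j‖ := hφL j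
    have h2 : 1 / ((j : ℝ) + 1) ≤ 1 := by
      rw [div_le_one (by positivity)]
      have : (0 : ℝ) ≤ j := Nat.cast_nonneg j
      linarith
    linarith
  have hex : ∀ j, ∃ u : E, ‖u‖ = 1 ∧ ‖R j‖ - 1 / ((j : ℝ) + 1) < ‖R j u‖ := by
    intro j
    have hj : 0 < 1 / ((j : ℝ) + 1) := by positivity
    obtain ⟨u, hu1, hu2⟩ := exists_unit (R := R j) (a := max 0 (‖R j‖ - 1 / ((j : ℝ) + 1)))
      (le_max_left _ _) (max_lt (hRpos j) (by linarith))
    exact ⟨u, hu1, (le_max_right _ _).trans_lt hu2⟩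
  choose u hu hRu using hex
  have hRule : ∀ j, ‖R j (u j)‖ ≤ ‖R j‖ := fun j => by
    have := (R j).le_opNorm (u j)
    rwa [hu j, mul_one] at this
  have hRulim : Tendsto (fun j => ‖R j (u j)‖) atTop (𝓝 L) := by
    have h1 : Tendsto (fun j : ℕ => ‖R j‖ - 1 / ((j : ℝ) + 1)) atTop (𝓝 (L - 0)) :=
      hRlim.sub (tendsto_one_div_add_atTop_nhds_zero_nat (𝕜 := ℝ))
    rw [sub_zero] at h1
    exact tendsto_of_tendsto_of_tendsto_of_le_of_le h1 hRlim (fun j => (hRu j).le) hRule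
  have hnull : ¬ WeaklyNull 𝕜 u := by
    intro hn
    have h1 : Tendsto (fun j => 2 * ‖h (u j)‖ + 1) atTop (𝓝 (2 * 0 + 1)) := by
      have h2 := (hn h).norm
      rw [norm_zero] at h2
      exact (h2.const_mul 2).add_const 1
    have h3 : L ≤ 2 * 0 + 1 := by
      refine le_of_tendsto_of_tendsto' hRulim h1 fun j => ?_
      have h4 : R j (u j) = (2 : ℝ) • h (u j) - g (φ j) (u j) := rfl
      rw [h4]
      refine (norm_sub_le _ _).trans ?_
      rw [norm_smul, Real.norm_of_nonneg (by norm_num)]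
      have h5 : ‖g (φ j) (u j)‖ ≤ 1 := by
        calc ‖g (φ j) (u j)‖ ≤ ‖g (φ j)‖ * ‖u j‖ := (g (φ j)).le_opNorm _
          _ ≤ 1 * 1 := by rw [hu j]; gcongr; exact hg1 _
          _ = 1 := one_mul 1
      linarith
    linarith
  obtain ⟨x₀, hx₀, hx₀L⟩ := wmp_limsup hW R L (by linarith) hRlim u hu hRulim hnull
  -- second extraction
  obtain ⟨ψ, hψ, hψL⟩ := extraction_forall_of_frequently
    (P := fun i j => L - 1 / ((i : ℝ) + 1) < ‖R j x₀‖) (fun i => hx₀L _ (by positivity))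
  have hRx : ∀ j, ‖R j x₀‖ ≤ ‖R j‖ := fun j => by
    have := (R j).le_opNorm x₀
    rwa [hx₀, mul_one] at this
  have hR3 : ∀ j, ‖R j‖ ≤ 3 := by
    intro j
    calc ‖R j‖ ≤ ‖(2 : ℝ) • h‖ + ‖g (φ j)‖ := norm_sub_le _ _
      _ ≤ 2 * 1 + 1 := by
          rw [norm_smul, Real.norm_of_nonneg (by norm_num)]
          have := hg1 (φ j)
          linarith
      _ = 3 := by norm_num
  obtain ⟨c, -, χ, hχ, hc⟩ := (isCompact_closedBall (0 : 𝕜) 3).tendsto_subseq
    (x := fun i => R (ψ i) x₀) (fun i => by simpa using (hRx (ψ i)).trans (hR3 (ψ i)))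
  have hcn : ‖c‖ = L := by
    have h1 : Tendsto (fun i => ‖R (ψ (χ i)) x₀‖) atTop (𝓝 ‖c‖) := hc.norm
    have h2 : Tendsto (fun i => ‖R (ψ (χ i)) x₀‖) atTop (𝓝 L) := by
      have h3 := hlow1.comp hχ.tendsto_atTop
      have h4 := hRlim.comp (hψ.tendsto_atTop.comp hχ.tendsto_atTop)
      exact tendsto_of_tendsto_of_tendsto_of_le_of_le h3 h4
        (fun i => (hψL (χ i)).le) (fun i => hRx _)
    exact tendsto_nhds_unique h1 h2
  have hcne : (‖c‖ : 𝕜) ≠ 0 := by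
    rw [hcn]
    exact_mod_cast (by linarith : L ≠ 0)
  set ω : 𝕜 := (‖c‖ : 𝕜)⁻¹ * (starRingEnd 𝕜) c with hω
  have hωn : ‖ω‖ = 1 := by
    rw [hω, norm_mul, norm_inv, RCLike.norm_ofReal, abs_norm, RCLike.norm_conj,
      inv_mul_cancel₀ (by rw [hcn]; linarith)]
  have hωc : ω * c = (L : 𝕜) := by
    rw [hω, mul_assoc, RCLike.conj_mul, sq, ← mul_assoc, inv_mul_cancel₀ hcne, one_mul, hcn]
  set x₁ : E := ω • x₀ with hx₁
  have hx₁n : ‖x₁‖ = 1 := by rw [hx₁, norm_smul, hωn, hx₀, one_mul]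
  have hlim : Tendsto (fun i => RCLike.re (R (ψ (χ i)) x₁)) atTop (𝓝 L) := by
    have h1 : Tendsto (fun i => R (ψ (χ i)) x₁) atTop (𝓝 (ω * c)) := by
      have := hc.const_mul ω
      refine this.congr fun i => ?_
      rw [hx₁, map_smul, smul_eq_mul]
      rfl
    rw [hωc] at h1
    have h2 := (RCLike.continuous_re.tendsto ((L : ℝ) : 𝕜)).comp h1
    rw [RCLike.ofReal_re] at h2
    exact h2
  -- the contradiction
  have hfin := real_contra (fun n => RCLike.re (g n x₁)) (fun n => RCLike.re (s n x₁))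
    (RCLike.re (h x₁)) L (fun i => φ (ψ (χ i)))
    (hφ.tendsto_atTop.comp (hψ.tendsto_atTop.comp hχ.tendsto_atTop))
    (by rw [hs0]; simp)
    (fun n => by rw [hs n, add_apply, smul_apply, map_add, RCLike.smul_re])
    (fun n => by
      rw [← map_sub, ← sub_apply]
      calc |RCLike.re ((h - s n) x₁)| ≤ ‖(h - s n) x₁‖ := RCLike.abs_re_le_norm _
        _ ≤ ‖h - s n‖ * ‖x₁‖ := ContinuousLinearMap.le_opNorm _ _
        _ ≤ (1 / 8) ^ n := by rw [hx₁n, mul_one]; exact hhs n)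
    (fun n k hk => by
      have h1 := hbd n k hk
      have h2 : 2 * (RCLike.re (s n x₁) + (1 / 8) ^ n * RCLike.re (g n x₁)) -
          RCLike.re (g k x₁) =
          RCLike.re (((2 : ℝ) • (s n + (1 / 8 : ℝ) ^ n • g n) - g k) x₁) := by
        rw [sub_apply, smul_apply, add_apply, smul_apply, map_sub, RCLike.smul_re, map_add,
          RCLike.smul_re]
      rw [h2]
      calc RCLike.re (((2 : ℝ) • (s n + (1 / 8 : ℝ) ^ n • g n) - g k) x₁)
          ≤ ‖((2 : ℝ) • (s n + (1 / 8 : ℝ) ^ n • g n) - g k) x₁‖ := RCLike.re_le_norm _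
        _ ≤ ‖(2 : ℝ) • (s n + (1 / 8 : ℝ) ^ n • g n) - g k‖ * ‖x₁‖ :=
            ContinuousLinearMap.le_opNorm _ _
        _ ≤ _ := by rw [hx₁n, mul_one]; exact h1)
    (by
      refine hlim.congr fun i => ?_
      have h4 : R (ψ (χ i)) x₁ = (2 : ℝ) • h x₁ - g (φ (ψ (χ i))) x₁ := rfl
      rw [h4, map_sub, RCLike.smul_re])
  linarith

end Pool.Agent.X204.WMP
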