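import Mathlib
import Pool.Agent.X204.WMP.Refl

/-! Finite dimensionality from the weak maximizing property. -/

namespace Pool.Agent.X204.WMP

open Filter Topology
open scoped ENNReal

variable {𝕜 : Type} [RCLike 𝕜] {E : Type*} [NormedAddCommGroup E] [NormedSpace 𝕜 E]

/-- diagonal extraction: bounded scalars at countably many points -/
theorem exists_subseq_countable (a : ℕ → ℕ → 𝕜) (C : ℕ → ℝ) (h : ∀ n j, ‖a n j‖ ≤ C j) :
    ∃ φ : ℕ → ℕ, StrictMono φ ∧ ∀ j, ∃ l, Tendsto (fun n => a (φ n) j) atTop (𝓝 l) := by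
  have hK : IsCompact (Set.pi Set.univ fun j => Metric.closedBall (0 : 𝕜) (C j)) :=
    isCompact_univ_pi fun j => isCompact_closedBall _ _
  obtain ⟨l, -, φ, hφ, hl⟩ := hK.tendsto_subseq (x := a) (fun n j _ => by simpa using h n j)
  exact ⟨φ, hφ, fun j => ⟨l j, (tendsto_pi_nhds.1 hl) j⟩⟩

/-- Hahn-Banach separation from a closed subspace -/
theorem exists_sep (V : Submodule 𝕜 E) (hV : IsClosed (V : Set E)) {x : E} (hx : x ∉ V) :
    ∃ f : E →L[𝕜] 𝕜, (∀ v ∈ V, f v = 0) ∧ f x ≠ 0 := by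
  have : IsClosed (V : Set E) := hV
  have hne : (Submodule.Quotient.mk x : E ⧸ V) ≠ 0 := by
    intro h
    exact hx ((Submodule.Quotient.mk_eq_zero V).1 h)
  obtain ⟨g, -, hg⟩ := exists_dual_vector 𝕜 (Submodule.Quotient.mk x : E ⧸ V)
    (norm_ne_zero_iff.2 hne)
  refine ⟨g.comp V.mkQL, fun v hv => ?_, ?_⟩
  · change g (Submodule.Quotient.mk v) = 0
    rw [(Submodule.Quotient.mk_eq_zero V).2 hv, map_zero]
  · change g (Submodule.Quotient.mk x) ≠ 0
    rw [hg]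
    exact_mod_cast norm_ne_zero_iff.2 hne

/-- the points at which a bounded sequence of functionals is Cauchy -/
theorem cauchy_of_dense (y : ℕ → (E →L[𝕜] 𝕜)) (C : ℝ) (hy : ∀ n, ‖y n‖ ≤ C) (s : Set E)
    (hs : ∀ x ∈ s, CauchySeq fun n => y n x)
    (hd : ∀ x : E, x ∈ (Submodule.span 𝕜 s).topologicalClosure) (x : E) :
    CauchySeq fun n => y n x := by
  have hC : 0 ≤ C := (norm_nonneg _).trans (hy 0)
  have h0 : ∀ z ∈ Submodule.span 𝕜 s, ∃ l, Tendsto (fun n => y n z) atTop (𝓝 l) := by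
    intro z hz
    induction hz using Submodule.span_induction with
    | mem z hz => exact cauchySeq_tendsto_of_complete (hs z hz)
    | zero => exact ⟨0, by simp⟩
    | add a b _ _ ha hb =>
      obtain ⟨la, ha⟩ := ha
      obtain ⟨lb, hb⟩ := hb
      exact ⟨la + lb, by simpa using ha.add hb⟩
    | smul c a _ ha =>
      obtain ⟨la, ha⟩ := ha
      exact ⟨c * la, by simpa using ha.const_mul c⟩
  have h1 : ∀ z ∈ Submodule.span 𝕜 s, CauchySeq fun n => y n z := fun z hz =>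
    (h0 z hz).choose_spec.cauchySeq
  rw [Metric.cauchySeq_iff]
  intro ε hε
  have hx := hd x
  rw [← SetLike.mem_coe, Submodule.topologicalClosure_coe, Metric.mem_closure_iff] at hx
  obtain ⟨z, hz, hxz⟩ := hx (ε / (3 * (C + 1))) (by positivity)
  obtain ⟨N, hN⟩ := Metric.cauchySeq_iff.1 (h1 z hz) (ε / 3) (by positivity)
  refine ⟨N, fun m hm n hn => ?_⟩
  have h2 := hN m hm n hn
  rw [dist_eq_norm] at h2 hxz ⊢
  have h3 : ∀ k, ‖y k (x - z)‖ ≤ ε / 3 := fun k => by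
    calc ‖y k (x - z)‖ ≤ C * ‖x - z‖ := (y k).le_of_opNorm_le (hy k) _
      _ ≤ (C + 1) * (ε / (3 * (C + 1))) := by gcongr; linarith
      _ = ε / 3 := by field_simp
  have h4 : y m x - y n x = y m (x - z) + (y m z - y n z) - y n (x - z) := by
    rw [map_sub, map_sub]; ring
  rw [h4]
  calc ‖y m (x - z) + (y m z - y n z) - y n (x - z)‖
      ≤ ‖y m (x - z)‖ + ‖y m z - y n z‖ + ‖y n (x - z)‖ :=
        (norm_sub_le _ _).trans (by gcongr; exact norm_add_le _ _)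
    _ < ε / 3 + ε / 3 + ε / 3 := by
        have := h3 m; have := h3 n; linarith
    _ = ε := by ring

/-- Bounded sequences of functionals on a reflexive space have pointwise convergent
subsequences. -/
theorem exists_subseq_pointwise
    (hrefl : Function.Surjective (NormedSpace.inclusionInDoubleDual 𝕜 E))
    (y : ℕ → (E →L[𝕜] 𝕜)) (C : ℝ) (hy : ∀ n, ‖y n‖ ≤ C) :
    ∃ φ : ℕ → ℕ, StrictMono φ ∧ ∀ x, CauchySeq fun n => y (φ n) x := by
  have hC : 0 ≤ C := (norm_nonneg _).trans (hy 0)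
  set Y : Submodule 𝕜 (E →L[𝕜] 𝕜) := Submodule.span 𝕜 (Set.range y) with hY
  have hsep : TopologicalSpace.IsSeparable (Y : Set (E →L[𝕜] 𝕜)) :=
    (Set.countable_range y).isSeparable.span
  obtain ⟨c, hc, hYc⟩ := hsep
  obtain ⟨w, hw⟩ := (hc.insert 0).exists_eq_range (Set.insert_nonempty _ _)
  have hYw : (Y : Set (E →L[𝕜] 𝕜)) ⊆ closure (Set.range w) :=
    hYc.trans (closure_mono (by rw [← hw]; exact Set.subset_insert _ _))
  have hx : ∀ j, ∃ x : E, ‖x‖ ≤ 1 ∧ ‖w j‖ / 2 ≤ ‖w j x‖ := by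
    intro j
    rcases eq_or_ne (w j) 0 with h | h
    · exact ⟨0, by simp, by simp [h]⟩
    · have hpos : 0 < ‖w j‖ := norm_pos_iff.2 h
      obtain ⟨u, hu, hu2⟩ := exists_unit (R := w j) (a := ‖w j‖ / 2) (by positivity)
        (by linarith)
      exact ⟨u, hu.le, hu2.le⟩
  choose xs hxs hwx using hx
  obtain ⟨φ, hφ, hl⟩ := exists_subseq_countable (fun n j => y n (xs j)) (fun _ => C)
    (fun n j => by
      calc ‖y n (xs j)‖ ≤ C * ‖xs j‖ := (y n).le_of_opNorm_le (hy n) _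
        _ ≤ C * 1 := by gcongr; exact hxs j
        _ = C := mul_one C)
  refine ⟨φ, hφ, ?_⟩
  refine cauchy_of_dense (fun n => y (φ n)) C (fun n => hy _)
    (Set.range xs ∪ {x | ∀ n, y n x = 0}) ?_ ?_
  · rintro x (⟨j, rfl⟩ | hx)
    · obtain ⟨l, hl⟩ := hl j
      exact hl.cauchySeq
    · have : (fun n => y (φ n) x) = fun _ => 0 := funext fun n => hx _
      rw [this]
      exact cauchySeq_const 0
  · intro x
    by_contra hcon
    obtain ⟨f, hf, hfx⟩ := exists_sep _ (Submodule.isClosed_topologicalClosure _) hcon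
    have hf' : ∀ v ∈ Set.range xs ∪ {x | ∀ n, y n x = 0}, f v = 0 := fun v hv =>
      hf v (Submodule.le_topologicalClosure _ (Submodule.subset_span hv))
    have hf0 : f ≠ 0 := by
      rintro rfl
      exact hfx rfl
    have hfY : f ∈ Y.topologicalClosure := by
      by_contra hfn
      obtain ⟨Φ, hΦ, hΦf⟩ := exists_sep _ (Submodule.isClosed_topologicalClosure Y) hfn
      obtain ⟨z, rfl⟩ := hrefl Φ
      have hz : ∀ n, y n z = 0 := fun n => by
        have := hΦ (y n) (Submodule.le_topologicalClosure _ (Submodule.subset_span ⟨n, rfl⟩))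
        rwa [NormedSpace.dual_def] at this
      apply hΦf
      rw [NormedSpace.dual_def]
      exact hf' z (Or.inr hz)
    have hfc : f ∈ closure (Set.range w) := by
      rw [← SetLike.mem_coe, Submodule.topologicalClosure_coe] at hfY
      exact closure_minimal hYw isClosed_closure hfY
    have hpos : 0 < ‖f‖ := norm_pos_iff.2 hf0
    obtain ⟨_, ⟨j, rfl⟩, hj⟩ := Metric.mem_closure_iff.1 hfc (‖f‖ / 4) (by positivity)
    rw [dist_eq_norm] at hj
    have h1 : f (xs j) = 0 := hf' _ (Or.inl ⟨j, rfl⟩)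
    have h2 : ‖w j (xs j)‖ ≤ ‖f - w j‖ := by
      have h3 : (f - w j) (xs j) = - w j (xs j) := by rw [sub_apply, h1, zero_sub]
      calc ‖w j (xs j)‖ = ‖(f - w j) (xs j)‖ := by rw [h3, norm_neg]
        _ ≤ ‖f - w j‖ * ‖xs j‖ := ContinuousLinearMap.le_opNorm _ _
        _ ≤ ‖f - w j‖ * 1 := by gcongr; exact hxs j
        _ = _ := mul_one _
    have h3 : ‖f‖ ≤ ‖f - w j‖ + ‖w j‖ := by
      calc ‖f‖ = ‖(f - w j) + w j‖ := by rw [sub_add_cancel]
        _ ≤ _ := norm_add_le _ _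
    have h4 := hwx j
    linarith

/-- Normalized pointwise null sequence of functionals on an infinite dimensional reflexive
space. -/
theorem exists_null (hrefl : Function.Surjective (NormedSpace.inclusionInDoubleDual 𝕜 E))
    (hinf : ¬ FiniteDimensional 𝕜 E) :
    ∃ g : ℕ → (E →L[𝕜] 𝕜), (∀ n, ‖g n‖ = 1) ∧ ∀ x, Tendsto (fun n => g n x) atTop (𝓝 0) := by
  have hinf' : ¬ FiniteDimensional 𝕜 (E →L[𝕜] 𝕜) := by
    intro hfin
    apply hinf
    let J : E →ₗ[𝕜] ((E →L[𝕜] 𝕜) →ₗ[𝕜] 𝕜) :=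
      { toFun := fun x =>
          { toFun := fun f => f x
            map_add' := fun f g => rfl
            map_smul' := fun c f => rfl }
        map_add' := fun x y => by ext f; exact map_add f x y
        map_smul' := fun c x => by ext f; exact map_smul f c x }
    have hJ : Function.Injective J := by
      rw [← LinearMap.ker_eq_bot, LinearMap.ker_eq_bot']
      intro x hx
      refine SeparatingDual.eq_zero_of_forall_dual_eq_zero (R := 𝕜) fun f => ?_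
      exact congrArg (fun Φ : (E →L[𝕜] 𝕜) →ₗ[𝕜] 𝕜 => Φ f) hx
    exact Module.Finite.of_injective J hJ
  obtain ⟨C, y, -, hy, hsep⟩ := exists_seq_norm_le_one_le_norm_sub hinf'
  obtain ⟨φ, hφ, hφc⟩ := exists_subseq_pointwise hrefl y C hy
  set d : ℕ → (E →L[𝕜] 𝕜) := fun n => y (φ (n + 1)) - y (φ n) with hd
  have hd1 : ∀ n, 1 ≤ ‖d n‖ := fun n => hsep (hφ (Nat.lt_succ_self n)).ne'
  refine ⟨fun n => ((‖d n‖⁻¹ : ℝ) : 𝕜) • d n, fun n => ?_, fun x => ?_⟩
  · rw [norm_smul, RCLike.norm_ofReal, abs_of_nonneg (by positivity),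
      inv_mul_cancel₀ (by have := hd1 n; positivity)]
  · obtain ⟨l, hl⟩ := cauchySeq_tendsto_of_complete (hφc x)
    have h1 : Tendsto (fun n => d n x) atTop (𝓝 0) := by
      have := ((tendsto_add_atTop_iff_nat 1).2 hl).sub hl
      rw [sub_self] at this
      exact this
    refine squeeze_zero_norm (fun n => ?_) (by simpa using h1.norm)
    rw [smul_apply, norm_smul, RCLike.norm_ofReal, abs_of_nonneg (by positivity)]
    calc ‖d n‖⁻¹ * ‖d n x‖ ≤ 1 * ‖d n x‖ := by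
          gcongr
          exact inv_le_one_of_one_le₀ (hd1 n)
      _ = _ := one_mul _

/-- the operator `x ↦ (g x, h_1 x, …, h_m x)` into `ℓ_1^{m+1}` -/
noncomputable def joint {m : ℕ} (g : E →L[𝕜] 𝕜) (h : Fin m → (E →L[𝕜] 𝕜)) :
    E →L[𝕜] PiLp 1 (fun _ : Fin (m + 1) => 𝕜) :=
  (PiLp.continuousLinearEquiv 1 𝕜 (fun _ : Fin (m + 1) => 𝕜)).symm.toContinuousLinearMap.comp
    (ContinuousLinearMap.pi (Fin.cons g h : Fin (m + 1) → (E →L[𝕜] 𝕜)))

theorem norm_joint {m : ℕ} (g : E →L[𝕜] 𝕜) (h : Fin m → (E →L[𝕜] 𝕜)) (x : E) :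
    ‖joint g h x‖ = ‖g x‖ + ∑ i, ‖h i x‖ := by
  rw [PiLp.norm_eq_of_L1, Fin.sum_univ_succ]
  rfl

/-- adding one more functional -/
theorem lemG {m : ℕ} (hW : HasWMP 𝕜 E (lp (fun _ : ℕ => PiLp 1 (fun _ : Fin (m + 1) => 𝕜)) ∞))
    (g : ℕ → (E →L[𝕜] 𝕜)) (hg : ∀ n, ‖g n‖ ≤ 1)
    (hg0 : ∀ x, Tendsto (fun n => g n x) atTop (𝓝 0)) (h : Fin m → (E →L[𝕜] 𝕜)) (S : ℝ)
    (hS0 : 0 ≤ S) (hS : ∀ x, ∑ i, ‖h i x‖ ≤ S * ‖x‖) (ε : ℝ) (hε : 0 < ε) :
    ∃ n, ∀ x, ‖g n x‖ + ∑ i, ‖h i x‖ ≤ (max S 1 + ε) * ‖x‖ := by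
  by_contra hcon
  push Not at hcon
  set R : ℕ → (E →L[𝕜] PiLp 1 (fun _ : Fin (m + 1) => 𝕜)) := fun n => joint (g n) h with hR
  have hRa : ∀ n x, ‖R n x‖ = ‖g n x‖ + ∑ i, ‖h i x‖ := fun n x => norm_joint _ _ _
  have hRle : ∀ n, ‖R n‖ ≤ 1 + S := fun n => by
    refine ContinuousLinearMap.opNorm_le_bound _ (by positivity) fun x => ?_
    rw [hRa, add_mul]
    refine add_le_add ?_ (hS x)
    exact (g n).le_of_opNorm_le (hg n) x
  have hRge : ∀ n, max S 1 + ε ≤ ‖R n‖ := fun n => by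
    obtain ⟨x, hx⟩ := hcon n
    by_contra hlt
    push Not at hlt
    have h1 : ‖R n x‖ ≤ (max S 1 + ε) * ‖x‖ := (R n).le_of_opNorm_le hlt.le x
    rw [hRa] at h1
    linarith
  obtain ⟨L, hLm, φ, hφ, hL⟩ := (isCompact_Icc (a := max S 1 + ε) (b := 1 + S)).tendsto_subseq
    (x := fun n => ‖R n‖) (fun n => ⟨hRge n, hRle n⟩)
  have hL1 : max S 1 + ε ≤ L := hLm.1
  have hS1 : S ≤ max S 1 := le_max_left _ _
  have h11 : 1 ≤ max S 1 := le_max_right _ _
  have hRlim : Tendsto (fun k => ‖R (φ k)‖) atTop (𝓝 L) := hL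
  have hex : ∀ j : ℕ, ∃ u : E, ‖u‖ = 1 ∧ ‖R (φ j)‖ - 1 / ((j : ℝ) + 1) < ‖R (φ j) u‖ := by
    intro j
    have hj : 0 < 1 / ((j : ℝ) + 1) := by positivity
    have hpos : 0 < ‖R (φ j)‖ := by have := hRge (φ j); linarith
    obtain ⟨u, hu1, hu2⟩ := exists_unit (R := R (φ j))
      (a := max 0 (‖R (φ j)‖ - 1 / ((j : ℝ) + 1)))
      (le_max_left _ _) (max_lt hpos (by linarith))
    exact ⟨u, hu1, (le_max_right _ _).trans_lt hu2⟩
  choose u hu hRu using hex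
  have hRule : ∀ j, ‖R (φ j) (u j)‖ ≤ ‖R (φ j)‖ := fun j => by
    have := (R (φ j)).le_opNorm (u j)
    rwa [hu j, mul_one] at this
  have hRulim : Tendsto (fun j => ‖R (φ j) (u j)‖) atTop (𝓝 L) := by
    have h1 : Tendsto (fun j : ℕ => ‖R (φ j)‖ - 1 / ((j : ℝ) + 1)) atTop (𝓝 (L - 0)) :=
      hRlim.sub (tendsto_one_div_add_atTop_nhds_zero_nat (𝕜 := ℝ))
    rw [sub_zero] at h1
    exact tendsto_of_tendsto_of_tendsto_of_le_of_le h1 hRlim (fun j => (hRu j).le) hRule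
  have hnull : ¬ WeaklyNull 𝕜 u := by
    intro hn
    have h1 : Tendsto (fun j => 1 + ∑ i, ‖h i (u j)‖) atTop (𝓝 (1 + ∑ _i : Fin m, 0)) := by
      refine tendsto_const_nhds.add (tendsto_finsetSum _ fun i _ => ?_)
      have h2 := (hn (h i)).norm
      rwa [norm_zero] at h2
    rw [Finset.sum_const_zero, add_zero] at h1
    have h3 : L ≤ 1 := by
      refine le_of_tendsto_of_tendsto' hRulim h1 fun j => ?_
      rw [hRa]
      gcongr
      calc ‖g (φ j) (u j)‖ ≤ 1 * ‖u j‖ := (g (φ j)).le_of_opNorm_le (hg _) _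
        _ = 1 := by rw [hu j, mul_one]
    linarith
  obtain ⟨x, hx, hxL⟩ := wmp_limsup hW (fun k => R (φ k)) L (by linarith) hRlim u hu hRulim hnull
  have h1 := hxL (ε / 2) (by positivity)
  have h2 : ∀ᶠ k in atTop, ‖g (φ k) x‖ < ε / 2 := by
    have h3 := ((hg0 x).comp hφ.tendsto_atTop).norm
    rw [norm_zero] at h3
    exact h3.eventually (gt_mem_nhds (by positivity))
  obtain ⟨k, hk1, hk2⟩ := (h1.and_eventually h2).exists
  rw [hRa] at hk1
  have h3 := hS x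
  rw [hx, mul_one] at h3
  linarith

/-- the bounds for the partial sums -/
noncomputable def bd (m : ℕ) : ℝ := 1 + 1 / 8 * (1 - (1 / 2) ^ m)

theorem one_le_bd (m : ℕ) : 1 ≤ bd m := by
  have : (1 / 2 : ℝ) ^ m ≤ 1 := pow_le_one₀ (by norm_num) (by norm_num)
  unfold bd
  linarith

theorem bd_le (m : ℕ) : bd m ≤ 9 / 8 := by
  have : (0 : ℝ) < (1 / 2) ^ m := by positivity
  unfold bd
  linarith

theorem bd_succ (m : ℕ) : bd (m + 1) = bd m + 1 / 8 * (1 / 2) ^ (m + 1) := by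
  unfold bd
  rw [pow_succ]
  ring

/-- a sequence of functionals with uniformly bounded absolute sums -/
theorem exists_sum_le
    (hW : ∀ m, HasWMP 𝕜 E (lp (fun _ : ℕ => PiLp 1 (fun _ : Fin (m + 1) => 𝕜)) ∞))
    (g : ℕ → (E →L[𝕜] 𝕜)) (hg : ∀ n, ‖g n‖ ≤ 1)
    (hg0 : ∀ x, Tendsto (fun n => g n x) atTop (𝓝 0)) :
    ∃ n : ℕ → ℕ, ∀ m x, ∑ j ∈ Finset.range m, ‖g (n j) x‖ ≤ 9 / 8 * ‖x‖ := by
  classical
  have hstep : ∀ m, ∀ A : {h : Fin m → (E →L[𝕜] 𝕜) // ∀ x, ∑ i, ‖h i x‖ ≤ bd m * ‖x‖},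
      ∃ n, ∀ x, ‖g n x‖ + ∑ i, ‖A.1 i x‖ ≤ bd (m + 1) * ‖x‖ := by
    intro m A
    have h1 := lemG (hW m) g hg hg0 A.1 (bd m) (zero_le_one.trans (one_le_bd m)) A.2
      (1 / 8 * (1 / 2) ^ (m + 1)) (by positivity)
    rwa [max_eq_left (one_le_bd m), ← bd_succ] at h1
  choose N hN using hstep
  let next : ∀ m, {h : Fin m → (E →L[𝕜] 𝕜) // ∀ x, ∑ i, ‖h i x‖ ≤ bd m * ‖x‖} →
      {h : Fin (m + 1) → (E →L[𝕜] 𝕜) // ∀ x, ∑ i, ‖h i x‖ ≤ bd (m + 1) * ‖x‖} := fun m A =>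
    ⟨Fin.cons (g (N m A)) A.1, fun x => by
      rw [Fin.sum_univ_succ]
      simpa using hN m A x⟩
  let A : ∀ m, {h : Fin m → (E →L[𝕜] 𝕜) // ∀ x, ∑ i, ‖h i x‖ ≤ bd m * ‖x‖} := fun m =>
    Nat.rec ⟨Fin.elim0, fun x => by
      simpa using mul_nonneg (zero_le_one.trans (one_le_bd 0)) (norm_nonneg x)⟩ next m
  refine ⟨fun m => N m (A m), fun m x => ?_⟩
  have hA : ∀ m, ∑ j ∈ Finset.range m, ‖g (N j (A j)) x‖ = ∑ i, ‖(A m).1 i x‖ := by
    intro m
    induction m with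
    | zero => simp
    | succ m ih =>
      rw [Finset.sum_range_succ, ih, Fin.sum_univ_succ, add_comm]
      rfl
  rw [hA]
  refine ((A m).2 x).trans ?_
  gcongr
  exact bd_le m

end Pool.Agent.X204.WMP
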