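import Mathlib
import Pool.Agent.X204.WMP.Fin

/-! The weak maximizing property for all targets forces finite dimension. -/

namespace Pool.Agent.X204.WMP

open Filter Topology
open scoped ENNReal

variable {𝕜 : Type} [RCLike 𝕜] {E : Type*} [NormedAddCommGroup E] [NormedSpace 𝕜 E]

theorem exists_ultralimit {W : Type*} [NormedAddCommGroup W] [NormedSpace 𝕜 W]
    (U : Ultrafilter ℕ) (g : ℕ → (W →L[𝕜] 𝕜)) (R : ℝ) (hg : ∀ n, ‖g n‖ ≤ R) :
    ∃ G : W →L[𝕜] 𝕜, ∀ w, Tendsto (fun n => g n w) U (𝓝 (G w)) := by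
  have hK := WeakDual.isCompact_closedBall (𝕜 := 𝕜) (E := W) 0 R
  have h1 : ∀ n, StrongDual.toWeakDual (g n) ∈
      (WeakDual.toStrongDual ⁻¹' Metric.closedBall (0 : StrongDual 𝕜 W) R) := by
    intro n
    simpa using hg n
  have h2 := (isCompact_iff_ultrafilter_le_nhds.1 hK)
    (U.map (fun n => StrongDual.toWeakDual (g n))) (by
      rw [le_principal_iff]
      exact Filter.mem_map.2 (Filter.Eventually.of_forall h1))
  obtain ⟨G, -, hG⟩ := h2
  refine ⟨WeakDual.toStrongDual G, fun w => ?_⟩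
  have h3 : Tendsto (fun n => StrongDual.toWeakDual (g n)) U (𝓝 G) := hG
  have h4 := ((WeakDual.eval_continuous w).tendsto G).comp h3
  exact h4

theorem exists_weak_ultralimit
    (hrefl : Function.Surjective (NormedSpace.inclusionInDoubleDual 𝕜 E))
    (U : Ultrafilter ℕ) (u : ℕ → E) (hu : ∀ n, ‖u n‖ = 1) :
    ∃ x : E, ∀ g : E →L[𝕜] 𝕜, Tendsto (fun n => g (u n)) U (𝓝 (g x)) := by
  obtain ⟨G, hG⟩ := exists_ultralimit (W := E →L[𝕜] 𝕜) U
    (fun n => NormedSpace.inclusionInDoubleDual 𝕜 E (u n)) 1 (fun n => by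
      have := NormedSpace.double_dual_bound 𝕜 E (u n)
      rwa [hu n] at this)
  obtain ⟨x, rfl⟩ := hrefl G
  exact ⟨x, fun g => hG g⟩

/-- a unit vector at which a functional of norm one is real and large -/
theorem exists_unit_real (h : E →L[𝕜] 𝕜) (hh : ‖h‖ = 1) :
    ∃ u : E, ‖u‖ = 1 ∧ 7 / 8 ≤ RCLike.re (h u) ∧ ‖h u‖ = RCLike.re (h u) := by
  obtain ⟨v, hv, hv2⟩ := exists_unit (R := h) (a := 7 / 8) (by norm_num) (by rw [hh]; norm_num)
  have hpos : 0 < ‖h v‖ := by linarith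
  have hne : (‖h v‖ : 𝕜) ≠ 0 := by exact_mod_cast hpos.ne'
  refine ⟨((‖h v‖ : 𝕜)⁻¹ * (starRingEnd 𝕜) (h v)) • v, ?_, ?_⟩
  · rw [norm_smul, norm_mul, norm_inv, RCLike.norm_ofReal, abs_norm, RCLike.norm_conj, hv,
      inv_mul_cancel₀ hpos.ne', one_mul]
  · have h1 : h (((‖h v‖ : 𝕜)⁻¹ * (starRingEnd 𝕜) (h v)) • v) = ((‖h v‖ : ℝ) : 𝕜) := by
      rw [map_smul, smul_eq_mul, mul_assoc, RCLike.conj_mul, sq, ← mul_assoc,
        inv_mul_cancel₀ hne, one_mul]
    rw [h1, RCLike.ofReal_re, RCLike.norm_ofReal, abs_norm]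
    exact ⟨hv2.le, rfl⟩

theorem finiteDimensional_of_wmp [CompleteSpace E]
    (h0 : HasWMP 𝕜 E (lp (fun _ : ℕ => 𝕜) ∞))
    (hW : ∀ m, HasWMP 𝕜 E (lp (fun _ : ℕ => PiLp 1 (fun _ : Fin (m + 1) => 𝕜)) ∞)) :
    FiniteDimensional 𝕜 E := by
  by_contra hinf
  have hrefl := reflexive_of_wmp h0
  obtain ⟨g, hg1, hg0⟩ := exists_null hrefl hinf
  obtain ⟨n, hn⟩ := exists_sum_le hW g (fun n => (hg1 n).le) hg0
  set h : ℕ → (E →L[𝕜] 𝕜) := fun j => g (n j) with hh
  have hhn : ∀ m x, ∑ j ∈ Finset.range m, ‖h j x‖ ≤ 9 / 8 * ‖x‖ := hn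
  have hsum : ∀ x, Summable fun j => ‖h j x‖ := fun x =>
    summable_of_sum_range_le (fun _ => norm_nonneg _) (fun m => hhn m x)
  have htsum : ∀ x, ∑' j, ‖h j x‖ ≤ 9 / 8 * ‖x‖ := fun x =>
    Real.tsum_le_of_sum_range_le (fun _ => norm_nonneg _) (fun m => hhn m x)
  let f : E →L[𝕜] 𝕜 := LinearMap.mkContinuous
    { toFun := fun x => ∑' j, h j x
      map_add' := fun x y => by
        rw [← (hsum x).of_norm.tsum_add (hsum y).of_norm]
        exact tsum_congr fun j => map_add (h j) x y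
      map_smul' := fun c x => by
        rw [RingHom.id_apply, smul_eq_mul, ← tsum_mul_left]
        exact tsum_congr fun j => map_smul (h j) c x }
    (9 / 8) (fun x => (norm_tsum_le_tsum_norm (hsum x)).trans (htsum x))
  have hf : ∀ x, f x = ∑' j, h j x := fun x => rfl
  choose u hu hu1 hu2 using fun k => exists_unit_real (h k) (hg1 (n k))
  -- lower bound for `f`
  have hflow : ∀ k, 5 / 8 ≤ RCLike.re (f (u k)) := by
    intro k
    have hite : ∀ j, ‖(if j = k then (0 : 𝕜) else h j (u k))‖ =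
        if j = k then (0 : ℝ) else ‖h j (u k)‖ := fun j => by
      split_ifs <;> simp
    have h1 : f (u k) = h k (u k) + ∑' j, (if j = k then (0 : 𝕜) else h j (u k)) := by
      rw [hf]
      exact (hsum (u k)).of_norm.tsum_eq_add_tsum_ite k
    have h2 : ∑' j, ‖h j (u k)‖ = ‖h k (u k)‖ + ∑' j, (if j = k then (0 : ℝ) else ‖h j (u k)‖) :=
      (hsum (u k)).tsum_eq_add_tsum_ite k
    have h3 : ‖∑' j, (if j = k then (0 : 𝕜) else h j (u k))‖ ≤
        ∑' j, (if j = k then (0 : ℝ) else ‖h j (u k)‖) := by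
      have h4 : Summable fun j => ‖(if j = k then (0 : 𝕜) else h j (u k))‖ := by
        refine Summable.of_nonneg_of_le (fun _ => norm_nonneg _) (fun j => ?_) (hsum (u k))
        rw [hite]
        split_ifs
        · exact norm_nonneg _
        · exact le_rfl
      refine (norm_tsum_le_tsum_norm h4).trans (le_of_eq (tsum_congr hite))
    have h5 := htsum (u k)
    rw [h2, hu k, hu2 k] at h5
    have h6 := hu1 k
    have h7 : ‖∑' j, (if j = k then (0 : 𝕜) else h j (u k))‖ ≤ 1 / 4 := by linarith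
    rw [h1, map_add]
    have h8 := (abs_le.1 ((RCLike.abs_re_le_norm
      (∑' j, (if j = k then (0 : 𝕜) else h j (u k)))).trans h7)).1
    linarith
  -- upper bound for the partial sums
  have hpart : ∀ m k, m ≤ k → ‖∑ j ∈ Finset.range m, h j (u k)‖ ≤ 1 / 4 := by
    intro m k hmk
    have h1 := hhn (k + 1) (u k)
    rw [Finset.sum_range_succ, hu k, hu2 k] at h1
    have h2 : ∑ j ∈ Finset.range m, ‖h j (u k)‖ ≤ ∑ j ∈ Finset.range k, ‖h j (u k)‖ :=
      Finset.sum_le_sum_of_subset_of_nonneg (Finset.range_mono hmk) fun _ _ _ => norm_nonneg _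
    have h3 := norm_sum_le (Finset.range m) fun j => h j (u k)
    have h4 := hu1 k
    linarith
  obtain ⟨x, hx⟩ := exists_weak_ultralimit hrefl (hyperfilter ℕ) u hu
  have hU : (hyperfilter ℕ : Filter ℕ) ≤ atTop := by
    rw [← Nat.cofinite_eq_atTop]; exact hyperfilter_le_cofinite
  have h1 : 5 / 8 ≤ RCLike.re (f x) := by
    have h2 := (RCLike.continuous_re.tendsto (f x)).comp (hx f)
    exact ge_of_tendsto' h2 hflow
  have h2 : ∀ m, ‖∑ j ∈ Finset.range m, h j x‖ ≤ 1 / 4 := by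
    intro m
    have h3 : Tendsto (fun k => ‖∑ j ∈ Finset.range m, h j (u k)‖) (hyperfilter ℕ : Filter ℕ)
        (𝓝 ‖∑ j ∈ Finset.range m, h j x‖) :=
      (tendsto_finsetSum _ fun j _ => hx (h j)).norm
    refine le_of_tendsto h3 (hU ?_)
    filter_upwards [eventually_ge_atTop m] with k hk
    exact hpart m k hk
  have h3 : ‖f x‖ ≤ 1 / 4 := by
    have h4 := ((hsum x).of_norm.hasSum.tendsto_sum_nat).norm
    exact le_of_tendsto' h4 h2
  have h4 := RCLike.re_le_norm (f x)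
  linarith

end Pool.Agent.X204.WMP
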